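import Pool.Agent.H7.LP.Defs

/-!
# Targets of the board lpg_modules
-/

set_option autoImplicit false

open Set Filter Topology

namespace Pool.Agent.H7.LP

open Pool.Agent.H93.CP

/-! ### A. Hits -/

/-- the essential closure of a set -/
def ess {T : Type} [TopologicalSpace T] (D : Set T) : Set T :=
  {g | ∀ U ∈ 𝓝 g, ¬ IsMeagre (D ∩ U)}

/-- A separating sequence of Borel sets, closed under complements. -/
def T_SPS : Prop :=
  ∀ (X : Type) [MeasurableSpace X] [StandardBorelSpace X],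
    ∃ A : ℕ → Set X, (∀ n, MeasurableSet (A n)) ∧ A 0 = univ ∧ (∀ n, ∃ m, A m = (A n)ᶜ) ∧
      ∀ x y, (∀ n, x ∈ A n ↔ y ∈ A n) → x = y

/-- Essential closures: they are closed, and meet exactly the right open sets. -/
def T_ESA : Prop :=
  ∀ (T : Type) [TopologicalSpace T] [SecondCountableTopology T] (D : Set T),
    IsClosed (ess D) ∧ ∀ U : Set T, IsOpen U → ((ess D ∩ U).Nonempty ↔ ¬ IsMeagre (D ∩ U))

/-- A Borel set is determined modulo meagre sets by its essential closure and that of its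
complement. -/
def T_ESB : Prop :=
  ∀ (T : Type) [TopologicalSpace T] [PolishSpace T] [MeasurableSpace T] [BorelSpace T]
    (D D' : Set T), MeasurableSet D → MeasurableSet D' → ess D = ess D' → ess Dᶜ = ess D'ᶜ →
    IsMeagre {g | ¬ (g ∈ D ↔ g ∈ D')}

/-- Borel actions have codes by closed sets. -/
def T_HIT : Prop :=
  ∀ (G X : Type) [Group G] [TopologicalSpace G] [IsTopologicalGroup G] [PolishSpace G]
    [MeasurableSpace G] [BorelSpace G] [MeasurableSpace X] [StandardBorelSpace X] (M : Subgroup G)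
    [MulAction M X] [MeasurableSMul₂ M X], IsClosed (M : Set G) → Nonempty (Hit M X)

/-- Equal codes up to translation. -/
def T_EQV : Prop :=
  ∀ (G X : Type) [Group G] [TopologicalSpace G] [MeasurableSpace X] (M : Subgroup G)
    [MulAction M X] (Y : Hit M X) (g : G) (x y : X), tr g (Y.C x) = Y.C y →
    ∃ m : M, (m : G) = g ∧ m • x = y

/-! ### B. Labels -/

/-- Basic properties of labels. -/
def T_LAB : Prop :=
  ∀ (G : Type) [Group G] [TopologicalSpace G] [IsTopologicalGroup G],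
    (∀ (R : Subgroup G) (c : ℕ → Set G) (n : ℕ), IsClosed (lab R c n)) ∧
    (∀ (R H : Subgroup G) (c : ℕ → Set G), Piece R H → ∀ h ∈ H,
      lab R (tr h c) = tr h (lab R c)) ∧
    (∀ (R : Subgroup G) (c : ℕ → Set G), ∀ r ∈ R, tr r (lab R c) = lab R c) ∧
    (∀ (R' R : Subgroup G) (g : G) (c c' : ℕ → Set G), (∀ r ∈ R', g * r * g⁻¹ ∈ R) →
      lab R' c = lab R' c' → lab R (tr g c) = lab R (tr g c')) ∧
    (∀ (H : Subgroup G) (y : ℕ → Set G), IsClosed (H : Set G) → (∀ n, IsClosed (y n)) →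
      IsClosed (Stb H y : Set G)) ∧
    (∀ (R H : Subgroup G) (c : ℕ → Set G), Piece R H → R ≤ Stb H (lab R c)) ∧
    (∀ (R : Subgroup G) (c : ℕ → Set G), lab R (lab R c) = lab R c)

/-- Labels modulo small groups determine closed sets. -/
def T_LSM : Prop :=
  ∀ (G : Type) [Group G] [TopologicalSpace G] [IsTopologicalGroup G] (R : ℕ → Subgroup G)
    (g : ℕ → G) (a a' : G) (c c' : ℕ → Set G), (∀ n, IsClosed (c n)) → (∀ n, IsClosed (c' n)) →
    (∀ U ∈ 𝓝 (1 : G), ∃ s, ∀ r ∈ R s, (g s)⁻¹ * r * g s ∈ U) →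
    (∀ s, lab (R s) (tr (g s * a) c) = lab (R s) (tr (g s * a') c')) → tr a c = tr a' c'

/-! ### C. Tight subgroups -/

/-- An open subgroup of a closed subgroup is closed. -/
def T_OCL : Prop :=
  ∀ (G : Type) [Group G] [TopologicalSpace G] [IsTopologicalGroup G] (K D : Subgroup G),
    IsClosed (D : Set G) → K ≤ D → OpenIn K D → IsClosed (K : Set G)

/-- Tight open subgroups exist below every open subgroup. -/
def T_TGA : Prop :=
  ∀ (G : Type) [Group G] [TopologicalSpace G] [IsTopologicalGroup G] [PolishSpace G]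
    (R H D O : Subgroup G), Piece R H → IsClosed (D : Set G) → R ≤ D → D ≤ H → R ≤ O → O ≤ D →
    OpenIn O D → ∃ K : Subgroup G, R ≤ K ∧ K ≤ O ∧ OpenIn K D ∧ Tight R K

/-- There are only countably many tight open subgroups. -/
def T_TGB : Prop :=
  ∀ (G : Type) [Group G] [TopologicalSpace G] [IsTopologicalGroup G] [PolishSpace G]
    (R H D : Subgroup G), Piece R H → IsClosed (D : Set G) → R ≤ D → D ≤ H →
    {K : Subgroup G | R ≤ K ∧ K ≤ D ∧ OpenIn K D ∧ Tight R K}.Countable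

/-- Decreasing sequences of cosets of tight subgroups have a common point. -/
def T_CV : Prop :=
  ∀ (G : Type) [Group G] [TopologicalSpace G] [IsTopologicalGroup G] [PolishSpace G]
    (H R K : ℕ → Subgroup G) (t : ℕ → G), (∀ s, Piece (R s) (H s)) →
    (∀ s, H (s + 1) ≤ H s) → (∀ s, R (s + 1) ≤ R s) → (∀ s, K (s + 1) ≤ K s) →
    (∀ s, IsClosed (K s : Set G)) → (∀ s, R s ≤ K s) → (∀ s, K s ≤ H s) →
    (∀ s, Tight (R s) (K s)) → (∀ s, (t s)⁻¹ * t (s + 1) ∈ K s) →
    (∀ U ∈ 𝓝 (1 : G), ∃ s, ∀ r ∈ R s, r ∈ U) →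
    (∀ U ∈ 𝓝 (1 : G), ∃ s, ∀ r ∈ R s, t s * r * (t s)⁻¹ ∈ U) →
    ∃ a, ∀ s, (t s)⁻¹ * a ∈ K s

/-- Conjugates of pieces and of tight groups. -/
def T_CJP : Prop :=
  ∀ (G : Type) [Group G] [TopologicalSpace G] [IsTopologicalGroup G] (g : G)
    (R K H : Subgroup G), (Piece R H → Piece (cj g R) (cj g H)) ∧
    (Tight R K → Tight (cj g R) (cj g K)) ∧
    (IsClosed (K : Set G) → IsClosed (cj g K : Set G))

/-! ### D. Representatives -/

/-- A piece is `σ`-compact modulo `R`. -/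
def T_SGC : Prop :=
  ∀ (G : Type) [Group G] [TopologicalSpace G] [IsTopologicalGroup G] [PolishSpace G]
    (R H : Subgroup G), Piece R H → ∃ C : ℕ → Set G, (∀ l, IsCompact (C l)) ∧
      (∀ l, ∀ c ∈ C l, c ∈ H) ∧ ∀ h ∈ H, ∃ l, ∃ c ∈ C l, c⁻¹ * h ∈ R

/-- Open subgroups have countably many right cosets. -/
def T_OCI : Prop :=
  ∀ (G : Type) [Group G] [TopologicalSpace G] [IsTopologicalGroup G] [PolishSpace G]
    (H : Subgroup G), IsOpen (H : Set G) → ∃ g : ℕ → G, ∀ a, ∃ n, a * (g n)⁻¹ ∈ H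

/-- A topology in which hits of labels are clopen. -/
def T_RTP : Prop :=
  ∀ (G X : Type) [Group G] [TopologicalSpace G] [IsTopologicalGroup G] [PolishSpace G]
    [MeasurableSpace X] [StandardBorelSpace X] (M : Subgroup G) [MulAction M X] (Y : Hit M X)
    (R : Subgroup G) (g : ℕ → G),
    ∃ (t : TopologicalSpace X) (B : Set (Set G)), @PolishSpace X t ∧ @BorelSpace X t _ ∧
      TopologicalSpace.IsTopologicalBasis B ∧ ∀ (i n : ℕ), ∀ U ∈ B,
        IsClosed[t] {x | (lab R (tr (g i) (Y.C x)) n ∩ U).Nonempty} ∧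
        IsOpen[t] {x | (lab R (tr (g i) (Y.C x)) n ∩ U).Nonempty}

/-- Closedness of an equality of translated closed sets. -/
def T_CLA : Prop :=
  ∀ (G X Z : Type) [Group G] [TopologicalSpace G] [IsTopologicalGroup G] [TopologicalSpace X]
    [TopologicalSpace Z] (B : Set (Set G)) (A : X → Set G) (A' : Z → Set G),
    TopologicalSpace.IsTopologicalBasis B → (∀ x, IsClosed (A x)) → (∀ z, IsClosed (A' z)) →
    (∀ U ∈ B, IsClosed {x | (A x ∩ U).Nonempty} ∧ IsOpen {x | (A x ∩ U).Nonempty}) →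
    (∀ U ∈ B, IsClosed {z | (A' z ∩ U).Nonempty} ∧ IsOpen {z | (A' z ∩ U).Nonempty}) →
    IsClosed {p : (X × Z) × G | {a | a * p.2 ∈ A p.1.1} = A' p.1.2}

/-- Closed relations between labels. -/
def T_CLR : Prop :=
  ∀ (G X : Type) [Group G] [TopologicalSpace G] [IsTopologicalGroup G] [PolishSpace G]
    [MeasurableSpace X] [StandardBorelSpace X] (M : Subgroup G) [MulAction M X] (Y : Hit M X)
    (R H : Subgroup G) (g : ℕ → G), Piece R H →
    ∃ t : TopologicalSpace X, @PolishSpace X t ∧ @BorelSpace X t _ ∧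
      (∀ (i j : ℕ) (C : Set G), IsCompact C → (∀ c ∈ C, c ∈ H) →
        @IsClosed (X × X) (@instTopologicalSpaceProd _ _ t t)
          {p : X × X | ∃ h ∈ C, lab R (tr (h * g i) (Y.C p.1)) = lab R (tr (g j) (Y.C p.2))}) ∧
      ∀ (i : ℕ) (y : ℕ → Set G), (∀ n, IsClosed (y n)) →
        @IsClosed (X × G) (@instTopologicalSpaceProd _ _ t _)
          {p : X × G | p.2 ∈ H ∧ lab R (tr (p.2 * g i) (Y.C p.1)) = y}

/-- The kernel and the theorem of Mycielski. -/
def T_KER : Prop :=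
  ∀ (X : Type) [TopologicalSpace X] [PolishSpace X] (E : X → X → Prop) (F : ℕ → Set (X × X)),
    Equivalence E → (∀ l, IsClosed (F l)) →
    (∀ l x y y', (x, y) ∈ F l → (x, y') ∈ F l → E y y') →
    (¬ ∃ A : Set X, A.Countable ∧ ∀ x, ∃ a ∈ A, E a x) →
    ∃ f : (ℕ → Bool) → X, Continuous f ∧ ∀ u v, u ≠ v → ∀ l, (f u, f v) ∉ F l

/-- Representatives exist if there are not perfectly many orbits. -/
def T_REP : Prop :=
  ∀ (G X : Type) [Group G] [TopologicalSpace G] [IsTopologicalGroup G] [PolishSpace G]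
    [MeasurableSpace X] [StandardBorelSpace X] (L : LPD G) (M : Subgroup G) [MulAction M X]
    (Y : Hit M X), ¬ PMO M X → Nonempty (Rep L Y)

/-! ### E. Systems -/

/-- There are countably many types. -/
def T_TYC : Prop :=
  ∀ (G X : Type) [Group G] [TopologicalSpace G] [IsTopologicalGroup G] [PolishSpace G]
    [MeasurableSpace X] (L : LPD G) (M : Subgroup G) [MulAction M X]
    (Y : Hit M X) (P : Rep L Y), Countable (Ty P)

/-- Every point has a node. -/
def T_EXN : Prop :=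
  ∀ (G X : Type) [Group G] [TopologicalSpace G] [IsTopologicalGroup G] [PolishSpace G]
    [MeasurableSpace X] (L : LPD G) (M : Subgroup G) [MulAction M X]
    (Y : Hit M X) (P : Rep L Y) (x : X), ∃ (q : Ty P) (g : G),
      lab (L.R q.k) (tr g (Y.C x)) = lab (L.R q.k) (tr q.z.2 (Y.C q.z.1))

/-- Common lower nodes. -/
def T_DRR : Prop :=
  ∀ (G X : Type) [Group G] [TopologicalSpace G] [IsTopologicalGroup G] [PolishSpace G]
    [MeasurableSpace X] (L : LPD G) (M : Subgroup G) [MulAction M X]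
    (Y : Hit M X) (P : Rep L Y) (x : X) (q₁ q₂ : Ty P) (g₁ g₂ : G) (m : ℕ),
    lab (L.R q₁.k) (tr g₁ (Y.C x)) = lab (L.R q₁.k) (tr q₁.z.2 (Y.C q₁.z.1)) →
    lab (L.R q₂.k) (tr g₂ (Y.C x)) = lab (L.R q₂.k) (tr q₂.z.2 (Y.C q₂.z.1)) →
    ∃ (q : Ty P) (g : G), lab (L.R q.k) (tr g (Y.C x)) = lab (L.R q.k) (tr q.z.2 (Y.C q.z.1)) ∧
      m ≤ q.k ∧ g ∈ L.H q.k ∧ AdmA L q.k q.K q₁.k q₁.K (g * g₁⁻¹) ∧
      AdmA L q.k q.K q₂.k q₂.K (g * g₂⁻¹)

/-- Countably many quotients. -/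
def T_GAM : Prop :=
  ∀ (G X : Type) [Group G] [TopologicalSpace G] [IsTopologicalGroup G] [PolishSpace G]
    [MeasurableSpace X] (L : LPD G) (M : Subgroup G) [MulAction M X]
    (Y : Hit M X) (P : Rep L Y), Countable (Ty P) →
    ∃ gm : ℕ → G, ∀ (x : X) (q' q : Ty P) (g' g : G),
      lab (L.R q'.k) (tr g' (Y.C x)) = lab (L.R q'.k) (tr q'.z.2 (Y.C q'.z.1)) →
      lab (L.R q.k) (tr g (Y.C x)) = lab (L.R q.k) (tr q.z.2 (Y.C q.z.1)) →
      AdmA L q'.k q'.K q.k q.K (g' * g⁻¹) → ∃ n, (gm n)⁻¹ * (g' * g⁻¹) ∈ q.K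

/-- The system exists. -/
def T_SYS : Prop :=
  ∀ (G X : Type) [Group G] [TopologicalSpace G] [IsTopologicalGroup G] [PolishSpace G]
    [MeasurableSpace X] [Nonempty X] (L : LPD G) (M : Subgroup G) [MulAction M X]
    (Y : Hit M X) (_ : Rep L Y), Nonempty (Sys L Y)

/-! ### F. Codes -/

/-- Countably many cosets of nodes. -/
def T_CNC : Prop :=
  ∀ (G X : Type) [Group G] [TopologicalSpace G] [IsTopologicalGroup G] [PolishSpace G]
    [MeasurableSpace X] (L : LPD G) (M : Subgroup G) [MulAction M X]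
    (Y : Hit M X) (S : Sys L Y) (x : X) (q : ℕ) (g₀ : G), S.Node x q g₀ →
    ∃ n : ℕ → G, (∀ j, S.Node x q (n j)) ∧ ∀ g, S.Node x q g → ∃ j, g * (n j)⁻¹ ∈ S.K q

/-- Codes and structures exist. -/
def T_COD : Prop :=
  ∀ (G X : Type) [Group G] [TopologicalSpace G] [IsTopologicalGroup G] [PolishSpace G]
    [MeasurableSpace X] (L : LPD G) (M : Subgroup G) [MulAction M X]
    (Y : Hit M X) (S : Sys L Y) (x : X), (∃ e, S.IsCode x e) ∧ ∀ e, ∃ w, S.IsStr x e w

/-- Admissible quotients and the third element of a double coset. -/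
def T_ADM : Prop :=
  ∀ (G X : Type) [Group G] [TopologicalSpace G] [IsTopologicalGroup G]
    [MeasurableSpace X] (L : LPD G) (M : Subgroup G) [MulAction M X]
    (Y : Hit M X) (S : Sys L Y) (q' q : ℕ) (a g' g : G), S.Adm q' q a → g' ∈ S.K q' → g ∈ S.K q →
    S.Adm q' q (g' * a * g) ∧ a⁻¹ * (g' * a * g) ∈ S.K q

/-- Codes and structures depend only on cosets. -/
def T_INV : Prop :=
  ∀ (G X : Type) [Group G] [TopologicalSpace G] [IsTopologicalGroup G]
    [MeasurableSpace X] (L : LPD G) (M : Subgroup G) [MulAction M X]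
    (Y : Hit M X) (S : Sys L Y) (x : X) (e e' : ℕ × ℕ → G),
    (∀ i g, S.Node x i.1 g → e' i * (e i)⁻¹ ∈ S.K i.1) →
    (S.IsCode x e → S.IsCode x e') ∧ ∀ w, S.IsStr x e w → S.IsStr x e' w

/-- Matching of sequences in which all values occur infinitely often. -/
def T_MAT : Prop :=
  ∀ (T : Type) (f f' : ℕ → T), (∀ j N, ∃ k, N ≤ k ∧ f k = f j) → (∀ j N, ∃ k, N ≤ k ∧ f' k = f j) →
    (∀ j N, ∃ k, N ≤ k ∧ f k = f' j) → (∀ j N, ∃ k, N ≤ k ∧ f' k = f' j) →
    ∃ π : Equiv.Perm ℕ, ∀ j, f' j = f (π j)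

/-- The structures of two codes of a point are isomorphic. -/
def T_PRM : Prop :=
  ∀ (G X : Type) [Group G] [TopologicalSpace G] [IsTopologicalGroup G]
    [MeasurableSpace X] (L : LPD G) (M : Subgroup G) [MulAction M X]
    (Y : Hit M X) (S : Sys L Y) (x : X) (e e' : ℕ × ℕ → G) (w w' : St),
    S.IsCode x e → S.IsCode x e' → S.IsStr x e w → S.IsStr x e' w' → Iso w w'

/-- A structure isomorphic to the structure of a code of `x` is the structure of a code of `x`. -/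
def T_ISO : Prop :=
  ∀ (G X : Type) [Group G] [TopologicalSpace G] [IsTopologicalGroup G]
    [MeasurableSpace X] (L : LPD G) (M : Subgroup G) [MulAction M X]
    (Y : Hit M X) (S : Sys L Y) (x : X) (e : ℕ × ℕ → G) (w w' : St),
    S.IsCode x e → S.IsStr x e w → Iso w w' → ∃ e', S.IsCode x e' ∧ S.IsStr x e' w'

/-- Codes of the points of an orbit. -/
def T_SHF : Prop :=
  ∀ (G X : Type) [Group G] [TopologicalSpace G] [IsTopologicalGroup G]
    [MeasurableSpace X] (L : LPD G) (M : Subgroup G) [MulAction M X]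
    (Y : Hit M X) (S : Sys L Y) (x : X) (m : M) (e : ℕ × ℕ → G) (w : St),
    S.IsCode x e → S.IsStr x e w →
    S.IsCode (m • x) (fun i => e i * (m : G)⁻¹) ∧ S.IsStr (m • x) (fun i => e i * (m : G)⁻¹) w

/-- Convergence for nodes. -/
def T_CVN : Prop :=
  ∀ (G X : Type) [Group G] [TopologicalSpace G] [IsTopologicalGroup G] [PolishSpace G]
    [MeasurableSpace X] (L : LPD G) (M : Subgroup G) [MulAction M X]
    (Y : Hit M X) (S : Sys L Y) (q : ℕ → ℕ) (g g' : ℕ → G),
    (∀ s, S.Adm (q (s + 1)) (q s) (g (s + 1) * (g s)⁻¹)) →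
    (∀ s, (g (s + 1) * (g s)⁻¹)⁻¹ * (g' (s + 1) * (g' s)⁻¹) ∈ S.K (q s)) →
    (∀ U ∈ 𝓝 (1 : G), ∃ s, ∀ r ∈ L.R (S.k (q s)), (g s)⁻¹ * r * g s ∈ U) →
    (∀ U ∈ 𝓝 (1 : G), ∃ s, ∀ r ∈ L.R (S.k (q s)), (g' s)⁻¹ * r * g' s ∈ U) →
    ∃ a, ∀ s, g' s * a * (g s)⁻¹ ∈ S.K (q s)

/-- The type of `q` occurs. -/
def T_PRS : Prop :=
  ∀ (G X : Type) [Group G] [TopologicalSpace G] [IsTopologicalGroup G]
    [MeasurableSpace X] (L : LPD G) (M : Subgroup G) [MulAction M X]
    (Y : Hit M X) (S : Sys L Y) (x : X) (e : ℕ × ℕ → G) (w : St),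
    S.IsCode x e → S.IsStr x e w → ∀ q, pres w q ↔ ∃ g, S.Node x q g

/-- Common lower indices. -/
def T_DIC : Prop :=
  ∀ (G X : Type) [Group G] [TopologicalSpace G] [IsTopologicalGroup G]
    [MeasurableSpace X] (L : LPD G) (M : Subgroup G) [MulAction M X]
    (Y : Hit M X) (S : Sys L Y) (x : X) (e : ℕ × ℕ → G) (w : St),
    S.IsCode x e → S.IsStr x e w → ∀ (i j : ℕ × ℕ) (m : ℕ), pres w i.1 → pres w j.1 →
    ∃ l : ℕ × ℕ, pres w l.1 ∧ m ≤ S.k l.1 ∧ e l ∈ L.H (S.k l.1) ∧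
      (∃ n, w (l, i, n) = true) ∧ ∃ n, w (l, j, n) = true

/-- A sequence of indices which is good for two codes. -/
def T_RSQ : Prop :=
  ∀ (G X : Type) [Group G] [TopologicalSpace G] [IsTopologicalGroup G]
    [MeasurableSpace X] (L : LPD G) (M : Subgroup G) [MulAction M X]
    (Y : Hit M X) (S : Sys L Y) (x x' : X) (e e' : ℕ × ℕ → G) (w : St),
    S.IsCode x e → S.IsCode x' e' → S.IsStr x e w → S.IsStr x' e' w →
    ∃ i : ℕ → ℕ × ℕ, (∀ s, pres w (i s).1) ∧ (∀ s, ∃ n, w (i (s + 1), i s, n) = true) ∧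
      (∀ m, ∃ s, m ≤ S.k (i s).1 ∧ e (i s) ∈ L.H (S.k (i s).1)) ∧
      ∀ m, ∃ s, m ≤ S.k (i s).1 ∧ e' (i s) ∈ L.H (S.k (i s).1)

/-- Points with equal structures are in one orbit. -/
def T_RIG : Prop :=
  ∀ (G X : Type) [Group G] [TopologicalSpace G] [IsTopologicalGroup G] [PolishSpace G]
    [MeasurableSpace X] (L : LPD G) (M : Subgroup G) [MulAction M X]
    (Y : Hit M X) (S : Sys L Y) (x x' : X) (e e' : ℕ × ℕ → G) (w : St),
    S.IsCode x e → S.IsCode x' e' → S.IsStr x e w → S.IsStr x' e' w → ∃ m : M, m • x = x'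

/-! ### G. Selection -/

/-- Measurable recursion with countably many choices. -/
def T_RCZ : Prop :=
  ∀ (Ω A : Type) [MeasurableSpace Ω] [Countable A] [Nonempty A] (I : Ω → A → Prop)
    (T : Ω → ℕ → A → A → Prop), (∀ a, MeasurableSet {ω | I ω a}) →
    (∀ s a a', MeasurableSet {ω | T ω s a a'}) →
    ∃ F : Ω → ℕ → A, (∀ s a, MeasurableSet {ω | F ω s = a}) ∧
      (∀ ω, (∃ a, I ω a) → I ω (F ω 0)) ∧
      ∀ ω s, (∃ a', T ω s (F ω s) a') → T ω s (F ω s) (F ω (s + 1))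

/-- what the recursion gives -/
structure IsRec {G X : Type} [Group G] [TopologicalSpace G] {M : Subgroup G} [MeasurableSpace X]
    [MulAction M X] {L : LPD G} {Y : Hit M X} (S : Sys L Y) (F : St → ℕ → (ℕ × ℕ) × G) :
    Prop where
  zero : ∀ w, (∃ q, pres w q) → pres w (F w 0).1.1 ∧ (F w 0).2 = 1
  step : ∀ w s, (∃ i' b', S.Step w s (F w s).1 (F w s).2 i' b') →
    S.Step w s (F w s).1 (F w s).2 (F w (s + 1)).1 (F w (s + 1)).2

/-- The recursion. -/
def T_REC : Prop :=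
  ∀ (G X : Type) [Group G] [TopologicalSpace G] [IsTopologicalGroup G] [PolishSpace G]
    [MeasurableSpace G] [BorelSpace G] [MeasurableSpace X] (L : LPD G) (M : Subgroup G)
    [MulAction M X] (Y : Hit M X) (S : Sys L Y),
    ∃ F : St → ℕ → (ℕ × ℕ) × G, (∀ s, Measurable fun w => F w s) ∧ IsRec S F

/-- Steps exist for structures of codes. -/
def T_STE : Prop :=
  ∀ (G X : Type) [Group G] [TopologicalSpace G] [IsTopologicalGroup G]
    [MeasurableSpace X] (L : LPD G) (M : Subgroup G) [MulAction M X]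
    (Y : Hit M X) (S : Sys L Y) (x : X) (e : ℕ × ℕ → G) (w : St),
    S.IsCode x e → S.IsStr x e w → ∀ (s : ℕ) (i : ℕ × ℕ) (b : G), pres w i.1 →
    ∃ i' b', S.Step w s i b i' b'

/-- All steps of the recursion are steps. -/
def T_STR : Prop :=
  ∀ (G X : Type) [Group G] [TopologicalSpace G] [IsTopologicalGroup G]
    [MeasurableSpace X] (L : LPD G) (M : Subgroup G) [MulAction M X]
    (Y : Hit M X) (S : Sys L Y) (F : St → ℕ → (ℕ × ℕ) × G), IsRec S F →
    ∀ (x : X) (e : ℕ × ℕ → G) (w : St), S.IsCode x e → S.IsStr x e w →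
      (F w 0).2 = 1 ∧ (∀ s, pres w (F w s).1.1) ∧
      ∀ s, S.Step w s (F w s).1 (F w s).2 (F w (s + 1)).1 (F w (s + 1)).2

/-- The element `a`. -/
def T_SXA : Prop :=
  ∀ (G X : Type) [Group G] [TopologicalSpace G] [IsTopologicalGroup G] [PolishSpace G]
    [MeasurableSpace X] (L : LPD G) (M : Subgroup G) [MulAction M X]
    (Y : Hit M X) (S : Sys L Y) (F : St → ℕ → (ℕ × ℕ) × G), IsRec S F →
    ∀ (x : X) (e : ℕ × ℕ → G) (w : St), S.IsCode x e → S.IsStr x e w →
      ∃ a : G, ∀ s, (F w s).2 * a * (e (F w s).1)⁻¹ ∈ S.K (F w s).1.1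

/-- The canonical code. -/
def T_EST : Prop :=
  ∀ (G X : Type) [Group G] [TopologicalSpace G] [IsTopologicalGroup G] [PolishSpace G]
    [MeasurableSpace G] [BorelSpace G] [MeasurableSpace X] (L : LPD G) (M : Subgroup G)
    [MulAction M X] (Y : Hit M X) (S : Sys L Y) (F : St → ℕ → (ℕ × ℕ) × G),
    (∀ s, Measurable fun w => F w s) →
    ∃ E : St → ℕ × ℕ → G, (∀ i, Measurable fun w => E w i) ∧
      ∀ w i, (∃ s n, w ((F w s).1, i, n) = true) →
        ∃ s n, w ((F w s).1, i, n) = true ∧ E w i = (S.gm n)⁻¹ * (F w s).2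

/-- The canonical code is a code with the same structure. -/
def T_SXB : Prop :=
  ∀ (G X : Type) [Group G] [TopologicalSpace G] [IsTopologicalGroup G]
    [MeasurableSpace X] (L : LPD G) (M : Subgroup G) [MulAction M X]
    (Y : Hit M X) (S : Sys L Y) (F : St → ℕ → (ℕ × ℕ) × G), IsRec S F →
    ∀ (E : St → ℕ × ℕ → G), (∀ w i, (∃ s n, w ((F w s).1, i, n) = true) →
        ∃ s n, w ((F w s).1, i, n) = true ∧ E w i = (S.gm n)⁻¹ * (F w s).2) →
    ∀ (x : X) (e : ℕ × ℕ → G) (w : St) (a : G), S.IsCode x e → S.IsStr x e w →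
      (∀ s, (F w s).2 * a * (e (F w s).1)⁻¹ ∈ S.K (F w s).1.1) →
      (∀ s, S.Node x (F w s).1.1 ((F w s).2 * a)) ∧
      S.IsCode x (fun i => E w i * a) ∧ S.IsStr x (fun i => E w i * a) w

/-- Borel transversals of closed subgroups (Dixmier). -/
def T_DIX : Prop :=
  ∀ (G : Type) [Group G] [TopologicalSpace G] [IsTopologicalGroup G] [PolishSpace G]
    [MeasurableSpace G] [BorelSpace G] (M : Subgroup G), IsClosed (M : Set G) →
    ∃ σ : G → G, Measurable σ ∧ (∀ g, ∃ m ∈ M, σ g = g * m) ∧ ∀ g, ∀ m ∈ M, σ (g * m) = σ g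

/-- Uniqueness. -/
def T_UNQ : Prop :=
  ∀ (G X : Type) [Group G] [TopologicalSpace G] [IsTopologicalGroup G]
    [MeasurableSpace X] (L : LPD G) (M : Subgroup G) [MulAction M X]
    (Y : Hit M X) (S : Sys L Y) (σ : G → G), (∀ g, ∃ m ∈ M, σ g = g * m) →
    (∀ g, ∀ m ∈ M, σ (g * m) = σ g) → ∀ (q : ℕ → ℕ) (b : ℕ → G) (x x' : X) (a a' : G),
    σ a = a → σ a' = a' → (∀ s, S.Node x (q s) (b s * a)) → (∀ s, S.Node x' (q s) (b s * a')) →
    (∀ s, ∀ r ∈ L.R (S.k (q (s + 1))), (b (s + 1))⁻¹ * r * b (s + 1) ∈ L.R s) →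
    x = x' ∧ a = a'

/-- Nodes are Borel. -/
def T_BND : Prop :=
  ∀ (G X : Type) [Group G] [TopologicalSpace G] [IsTopologicalGroup G] [PolishSpace G]
    [MeasurableSpace G] [BorelSpace G] [MeasurableSpace X] [StandardBorelSpace X] (L : LPD G)
    (M : Subgroup G) [MulAction M X] (Y : Hit M X) (S : Sys L Y) (q : ℕ),
    MeasurableSet {p : X × G | S.Node p.1 q p.2}

/-- The presence of a type is Borel. -/
def T_BPR : Prop :=
  ∀ (G X : Type) [Group G] [TopologicalSpace G] [IsTopologicalGroup G] [PolishSpace G]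
    [MeasurableSpace X] [StandardBorelSpace X] (L : LPD G)
    (M : Subgroup G) [MulAction M X] (Y : Hit M X) (S : Sys L Y) (q : ℕ),
    MeasurableSet {x : X | ∃ g, S.Node x q g}

/-- Codes are Borel. -/
def T_BCO : Prop :=
  ∀ (G X : Type) [Group G] [TopologicalSpace G] [IsTopologicalGroup G] [PolishSpace G]
    [MeasurableSpace G] [BorelSpace G] [MeasurableSpace X] [StandardBorelSpace X] (L : LPD G)
    (M : Subgroup G) [MulAction M X] (Y : Hit M X) (S : Sys L Y),
    MeasurableSet {p : X × (ℕ × ℕ → G) | S.IsCode p.1 p.2}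

/-- Admissible quotients form a Borel set. -/
def T_BAD : Prop :=
  ∀ (G X : Type) [Group G] [TopologicalSpace G] [IsTopologicalGroup G]
    [MeasurableSpace G] [BorelSpace G] [MeasurableSpace X] (L : LPD G)
    (M : Subgroup G) [MulAction M X] (Y : Hit M X) (S : Sys L Y),
    (∀ q, IsClosed (S.K q : Set G)) ∧ ∀ q' q, MeasurableSet {a : G | S.Adm q' q a}

/-- Structures are Borel. -/
def T_BST : Prop :=
  ∀ (G X : Type) [Group G] [TopologicalSpace G] [IsTopologicalGroup G] [PolishSpace G]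
    [MeasurableSpace G] [BorelSpace G] [MeasurableSpace X] [StandardBorelSpace X] (L : LPD G)
    (M : Subgroup G) [MulAction M X] (Y : Hit M X) (S : Sys L Y),
    MeasurableSet {p : X × (ℕ × ℕ → G) × St | S.IsStr p.1 p.2.1 p.2.2}

/-- The set `W` is Borel and has a Borel selector. -/
def T_SEL : Prop :=
  ∀ (G X : Type) [Group G] [TopologicalSpace G] [IsTopologicalGroup G] [PolishSpace G]
    [MeasurableSpace G] [BorelSpace G] [MeasurableSpace X] [StandardBorelSpace X] [Nonempty X]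
    (L : LPD G) (M : Subgroup G) [MulAction M X] (Y : Hit M X) (S : Sys L Y),
    IsClosed (M : Set G) →
    MeasurableSet S.W ∧ ∃ f : St → X, Measurable f ∧
      ∀ w ∈ S.W, ∃ e, S.IsCode (f w) e ∧ S.IsStr (f w) e w

/-! ### H. The end -/

/-- The non-archimedean group which acts on structures. -/
def T_PGT : Prop :=
  ∀ (W : Set St), MeasurableSet W → (∀ w w', w ∈ W → Iso w w' → w' ∈ W) →
    ∃ (P : Type) (_ : TopologicalSpace P) (_ : Group P) (_ : IsTopologicalGroup P)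
      (_ : PolishSpace P) (_ : MeasurableSpace P) (_ : BorelSpace P) (_ : MulAction P W)
      (_ : MeasurableSMul₂ P W), NonArch P ∧ ∀ w w' : W, (∃ g : P, g • w = w') ↔ Iso w.1 w'.1

/-- Perfectly many orbits are not countably many. -/
def T_PNC : Prop :=
  ∀ (G X : Type) [Group G] [MulAction G X] [MeasurableSpace X], PMO G X → ¬ CMO G X

/-- The orbits of structures and of points. -/
def T_ORB : Prop :=
  ∀ (G X : Type) [Group G] [TopologicalSpace G] [IsTopologicalGroup G] [PolishSpace G]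
    [MeasurableSpace X] (L : LPD G) (M : Subgroup G) [MulAction M X]
    (Y : Hit M X) (S : Sys L Y) (x x' : X) (e e' : ℕ × ℕ → G) (w w' : St),
    S.IsCode x e → S.IsStr x e w → S.IsCode x' e' → S.IsStr x' e' w' →
    (Iso w w' ↔ ∃ m : M, m • x = x')

/-- The transfer. -/
def T_TRA : Prop :=
  ∀ (G X : Type) [Group G] [TopologicalSpace G] [IsTopologicalGroup G] [PolishSpace G]
    [MeasurableSpace G] [BorelSpace G] [MeasurableSpace X] [StandardBorelSpace X] (_ : LPD G)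
    (M : Subgroup G) [MulAction M X] [MeasurableSMul₂ M X], IsClosed (M : Set G) →
    ∃ (P : Type) (_ : TopologicalSpace P) (_ : Group P) (_ : IsTopologicalGroup P)
      (_ : PolishSpace P) (_ : MeasurableSpace P) (_ : BorelSpace P) (Z : Type)
      (_ : MeasurableSpace Z) (_ : StandardBorelSpace Z) (_ : MulAction P Z)
      (_ : MeasurableSMul₂ P Z), NonArch P ∧ (CMO P Z ↔ CMO M X) ∧ (PMO P Z ↔ PMO M X)

end Pool.Agent.H7.LP
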