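import Pool.Agent.H7.LP.Targets
import Pool.Agent.H54.LP.Targets
import Pool.Agent.H93.CP.Targets2

/-!
# More targets of the board lpg_modules: isometry groups are enough
-/

set_option autoImplicit false

open Set Filter Topology

namespace Pool.Agent.H7.LP

open Pool.Agent.H93.CP

/-- The induced space of a closed subgroup (Mackey). -/
def T_IND : Prop :=
  ∀ (L X : Type) [Group L] [TopologicalSpace L] [IsTopologicalGroup L] [PolishSpace L]
    [MeasurableSpace L] [BorelSpace L] [MeasurableSpace X] [StandardBorelSpace X]
    (H : Subgroup L) [MulAction H X] [MeasurableSMul₂ H X], IsClosed (H : Set L) →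
    ∃ (Z : Type) (_ : MeasurableSpace Z) (_ : StandardBorelSpace Z) (_ : MulAction L Z)
      (_ : MeasurableSMul₂ L Z), (CMO L Z ↔ CMO H X) ∧ (PMO L Z ↔ PMO H X)

/-- Every non-archimedean Polish group is a closed subgroup of the isometry group of a locally
compact (even discrete) space. -/
def T_ISD : Prop :=
  ∀ (Γ : Type) [TopologicalSpace Γ] [Group Γ] [IsTopologicalGroup Γ] [PolishSpace Γ], NonArch Γ →
    ∃ (D : Type) (_ : MetricSpace D) (_ : CompleteSpace D) (_ : TopologicalSpace.SeparableSpace D)
      (_ : LocallyCompactSpace D) (φ : Γ →* (D ≃ᵢ D)), Topology.IsClosedEmbedding φ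

end Pool.Agent.H7.LP
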