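import Pool.Agent.H1.LP.EQV
import Pool.Agent.H1.LP.SPS
import Pool.Agent.H11.LP.IND
import Pool.Agent.H12.LP.ISD
import Pool.Agent.H12.LP.OCI
import Pool.Agent.H12.LP.RCZ
import Pool.Agent.H13.LPG.HIT
import Pool.Agent.H14.LP.ISO
import Pool.Agent.H14.LP.RSQ
import Pool.Agent.H19.LP.ESA
import Pool.Agent.H19.LP.ESB
import Pool.Agent.H19.LP.LSM
import Pool.Agent.H25.LP.RTP
import Pool.Agent.H3.LP.DIX
import Pool.Agent.H30.LP.COD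
import Pool.Agent.H36.LP.RIG
import Pool.Agent.H36.LP.SEL
import Pool.Agent.H4.LPG.BCO
import Pool.Agent.H42.LP.MAT
import Pool.Agent.H42.LP.PRS
import Pool.Agent.H44.LPG.CNC
import Pool.Agent.H5.LP.GAM
import Pool.Agent.H50.LP.TRA
import Pool.Agent.H51.LP.DRR
import Pool.Agent.H54.LP.X1
import Pool.Agent.H54.LP.X3
import Pool.Agent.H54.LP.X4
import Pool.Agent.H54.LP.X5
import Pool.Agent.H54.LP.X6
import Pool.Agent.H54.LP.X7
import Pool.Agent.H54.LP.X8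
import Pool.Agent.H54.LP.X9
import Pool.Agent.H55.LP.CVN
import Pool.Agent.H64.LPG.EXN
import Pool.Agent.H64.LPG.STE
import Pool.Agent.H68.LP.Brg
import Pool.Agent.H69.LP.BST
import Pool.Agent.H69.LP.TYC
import Pool.Agent.H7.LP.Targets2
import Pool.Agent.H73.LPG.PRM
import Pool.Agent.H74.LPG.DIC
import Pool.Agent.H75.LP.REC
import Pool.Agent.H79.LPG.CJP
import Pool.Agent.H79.LPG.UNQ
import Pool.Agent.H80.LP.LAB
import Pool.Agent.H83.LP.SXA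
import Pool.Agent.H83.LP.SXB
import Pool.Agent.H85.LP.KER
import Pool.Agent.H85.LP.REP
import Pool.Agent.H86.LPG.INV
import Pool.Agent.H86.LPG.SYS
import Pool.Agent.H88.LP.CLR
import Pool.Agent.H88.LP.SGC
import Pool.Agent.H90.LP.ORB
import Pool.Agent.H90.LP.PGT
import Pool.Agent.H90.LP.SHF
import Pool.Agent.H91.LP.ADM
import Pool.Agent.H91.LP.BAD
import Pool.Agent.H91.LP.CLA
import Pool.Agent.H93.CP.All
import Pool.Agent.H94.LP.PNC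
import Pool.Agent.H97.LP.BND
import Pool.Agent.H97.LP.BPR
import Pool.Agent.H99.LP.EST
import Pool.Agent.H99.LP.STR

/-!
# All rows of the board lpg_modules
-/

set_option autoImplicit false

namespace Pool.Agent.H7.LP

theorem r_OCL : T_OCL := Pool.Agent.H68.LP.brg_OCL

theorem r_TGA : T_TGA := Pool.Agent.H68.LP.brg_TGA

theorem r_TGB : T_TGB := Pool.Agent.H68.LP.brg_TGB

theorem r_CV : T_CV := Pool.Agent.H68.LP.brg_CV

theorem r_X1 : Pool.Agent.H54.LP.T_X1 := Pool.Agent.H54.LP.pf_X1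

theorem r_X2 : Pool.Agent.H54.LP.T_X2 := Pool.Agent.H54.LP.pf_X2

theorem r_X3 : Pool.Agent.H54.LP.T_X3 := Pool.Agent.H54.LP.pf_X3

theorem r_X6 : Pool.Agent.H54.LP.T_X6 := Pool.Agent.H54.LP.pf_X6

theorem r_X9 : Pool.Agent.H54.LP.T_X9 := Pool.Agent.H54.LP.pf_X9

theorem r_ADM : T_ADM := Pool.Agent.H91.LP.pf_ADM

theorem r_BND : T_BND := Pool.Agent.H97.LP.pf_BND

theorem r_CJP : T_CJP := Pool.Agent.H79.LPG.pf_CJP

theorem r_CLA : T_CLA := Pool.Agent.H91.LP.pf_CLA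

theorem r_DIX : T_DIX := Pool.Agent.H3.LP.pf_DIX

theorem r_EQV : T_EQV := Pool.Agent.H1.LP.pf_EQV

theorem r_ESA : T_ESA := Pool.Agent.H19.LP.pf_ESA

theorem r_ESB : T_ESB := Pool.Agent.H19.LP.pf_ESB r_ESA

theorem r_EST : T_EST := Pool.Agent.H99.LP.pf_EST

theorem r_IND : T_IND := Pool.Agent.H11.LP.pf_IND r_DIX

theorem r_ISD : T_ISD :=
  Pool.Agent.H12.LP.pf_ISD Pool.Agent.H93.CP.r_EMB Pool.Agent.H93.CP.r_PCL r_X6

theorem r_ISO : T_ISO := Pool.Agent.H14.LP.pf_ISO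

theorem r_KER : T_KER := Pool.Agent.H85.LP.pf_KER

theorem r_LAB : T_LAB := Pool.Agent.H80.LP.pf_LAB

theorem r_LSM : T_LSM := Pool.Agent.H19.LP.pf_LSM r_LAB

theorem r_MAT : T_MAT := Pool.Agent.H42.LP.pf_MAT

theorem r_OCI : T_OCI := Pool.Agent.H12.LP.pf_OCI

theorem r_PGT : T_PGT := Pool.Agent.H90.LP.pf_PGT

theorem r_PNC : T_PNC := Pool.Agent.H94.LP.pf_PNC

theorem r_PRS : T_PRS := Pool.Agent.H42.LP.pf_PRS

theorem r_RCZ : T_RCZ := Pool.Agent.H12.LP.pf_RCZ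

theorem r_REC : T_REC := Pool.Agent.H75.LP.pf_REC r_RCZ

theorem r_RTP : T_RTP := Pool.Agent.H25.LP.pf_RTP Pool.Agent.H93.CP.r_TPS

theorem r_SGC : T_SGC := Pool.Agent.H88.LP.pf_SGC

theorem r_SHF : T_SHF := Pool.Agent.H90.LP.pf_SHF

theorem r_SPS : T_SPS := Pool.Agent.H1.LP.pf_SPS

theorem r_TYC : T_TYC := Pool.Agent.H69.LP.pf_TYC r_LAB r_TGB

theorem r_UNQ : T_UNQ := Pool.Agent.H79.LPG.pf_UNQ r_EQV r_LSM

theorem r_BAD : T_BAD := Pool.Agent.H91.LP.pf_BAD r_LAB r_OCL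

theorem r_CLR : T_CLR := Pool.Agent.H88.LP.pf_CLR r_LAB r_RTP r_CLA

theorem r_CNC : T_CNC := Pool.Agent.H7.LP.pf_CNC r_LAB r_OCI

theorem r_COD : T_COD := Pool.Agent.H30.LP.pf_COD r_CNC

theorem r_CVN : T_CVN := Pool.Agent.H55.LP.pf_CVN r_LAB r_OCL r_CJP r_CV

theorem r_DIC : T_DIC := Pool.Agent.H74.LPG.pf_DIC r_LAB r_PRS r_ADM

theorem r_DRR : T_DRR := Pool.Agent.H51.LP.pf_DRR r_LAB r_TGA

theorem r_EXN : T_EXN := Pool.Agent.H64.LPG.pf_EXN r_LAB r_TGA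

theorem r_GAM : T_GAM := Pool.Agent.H5.LP.pf_GAM r_LAB r_OCI

theorem r_HIT : T_HIT := Pool.Agent.H13.LPG.pf_HIT r_SPS r_ESA r_ESB Pool.Agent.H93.CP.r_STM

theorem r_INV : T_INV := Pool.Agent.H86.LPG.pf_INV r_LAB r_ADM

theorem r_PRM : T_PRM := Pool.Agent.H73.LPG.pf_PRM r_LAB r_INV r_MAT

theorem r_REP : T_REP := Pool.Agent.H85.LP.pf_REP r_LAB r_SGC r_OCI r_CLR r_KER

theorem r_RSQ : T_RSQ := Pool.Agent.H14.LP.pf_RSQ r_PRS r_DIC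

theorem r_STE : T_STE := Pool.Agent.H64.LPG.pf_STE r_PRS r_DIC

theorem r_STR : T_STR := Pool.Agent.H99.LP.pf_STR r_PRS r_STE

theorem r_SXA : T_SXA := Pool.Agent.H83.LP.pf_SXA r_PRS r_DIC r_CVN r_STR

theorem r_SXB : T_SXB := Pool.Agent.H83.LP.pf_SXB r_LAB r_PRS r_STR r_ADM r_INV

theorem r_SYS : T_SYS := Pool.Agent.H86.LPG.pf_SYS r_LAB r_TYC r_EXN r_DRR r_GAM

theorem r_BPR : T_BPR := Pool.Agent.H97.LP.pf_BPR r_LAB r_SGC r_OCI r_CLR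

theorem r_BST : T_BST := Pool.Agent.H69.LP.pf_BST r_BPR r_BAD

theorem r_RIG : T_RIG := Pool.Agent.H36.LP.pf_RIG r_EQV r_LAB r_LSM r_PRS r_CVN r_RSQ

theorem r_BCO : T_BCO := Pool.Agent.H4.LPG.pf_BCO r_LAB r_SGC r_OCI r_CLR r_BND r_BPR

theorem r_ORB : T_ORB := Pool.Agent.H90.LP.pf_ORB r_PRM r_ISO r_SHF r_RIG

theorem r_SEL : T_SEL :=
  Pool.Agent.H36.LP.pf_SEL r_REC r_STR r_SXA r_EST r_SXB r_DIX r_UNQ r_BND r_BCO r_BST r_SHF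

theorem r_TRA : T_TRA :=
  Pool.Agent.H50.LP.pf_TRA r_HIT r_REP r_SYS r_COD r_SEL r_PGT r_PNC r_ORB r_ISO

end Pool.Agent.H7.LP
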