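import Pool.Agent.H7.LP.Targets3

/-!
# Targets of the board lpq_modules: the group which acts on countably many binary relations
-/

set_option autoImplicit false

open Set Filter Topology

namespace Pool.Agent.H7.LQ

open Pool.Agent.H93.CP Pool.Agent.H7.LP

/-- The non-archimedean group which acts on an invariant Borel set of structures. -/
def T_PGR : Prop :=
  ∀ (W : Set Rel), MeasurableSet W → (∀ w w', w ∈ W → IsoR w w' → w' ∈ W) →
    ∃ (P : Type) (_ : TopologicalSpace P) (_ : Group P) (_ : IsTopologicalGroup P)
      (_ : PolishSpace P) (_ : MeasurableSpace P) (_ : BorelSpace P) (_ : MulAction P W)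
      (_ : MeasurableSMul₂ P W), NonArch P ∧ ∀ w w' : W, (∃ g : P, g • w = w') ↔ IsoR w.1 w'.1

end Pool.Agent.H7.LQ
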