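import Pool.Agent.H1.LQ.CSE
import Pool.Agent.H1.LQ.CVG
import Pool.Agent.H1.LQ.PRQ
import Pool.Agent.H12.LPQ.DIQ
import Pool.Agent.H19.LQ.ORQ
import Pool.Agent.H19.LQ.SBQ
import Pool.Agent.H19.LQ.UNR
import Pool.Agent.H21.LQ.TRS
import Pool.Agent.H25.LQ.REQ
import Pool.Agent.H31.LPQ.ADG
import Pool.Agent.H35.LQ.NCO
import Pool.Agent.H36.LQ.ENC
import Pool.Agent.H37.LQ.RIQ
import Pool.Agent.H37.LQ.STX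
import Pool.Agent.H38.LQ.RSR
import Pool.Agent.H4.LQ.PGR
import Pool.Agent.H49.LQ3.RCT
import Pool.Agent.H5.LQ.LBT
import Pool.Agent.H54.LQ.All
import Pool.Agent.H55.LP.BCQ
import Pool.Agent.H55.LP.CDM
import Pool.Agent.H55.LP.SAM
import Pool.Agent.H55.LP.SEQ
import Pool.Agent.H55.LP.UMX
import Pool.Agent.H61.LQ.DRQ
import Pool.Agent.H64.LQ.SLQ
import Pool.Agent.H68.LCS.All
import Pool.Agent.H69.LQ.SHQ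
import Pool.Agent.H7.LP.All
import Pool.Agent.H7.LP.Targets4
import Pool.Agent.H77.LQ.ISQ
import Pool.Agent.H86.LPQ.ESQ
import Pool.Agent.H90.LQ.INQ
import Pool.Agent.H91.LP.SAQ
import Pool.Agent.H94.LQ.BSQ

/-!
# All rows of the board lpq_modules
-/

set_option autoImplicit false

namespace Pool.Agent.H7.LQ

theorem r_CAN : T_CAN :=
  Pool.Agent.H68.LCS.a_CAN Pool.Agent.H7.LP.r_LAB Pool.Agent.H54.LQ.c_KRN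

theorem r_BKX : T_BKX := Pool.Agent.H54.LQ.q_BKX

theorem r_BLE : T_BLE := Pool.Agent.H54.LQ.q_BLE

theorem r_BQQ : T_BQQ := Pool.Agent.H54.LQ.q_BQQ

theorem r_BSX : T_BSX := Pool.Agent.H54.LQ.q_BSX

theorem r_BTG : T_BTG := Pool.Agent.H54.LQ.q_BTG

theorem r_KKA : T_KKA := Pool.Agent.H54.LQ.q_KKA

theorem r_LBM : T_LBM := Pool.Agent.H54.LQ.q_LBM

theorem r_SLX : T_SLX := Pool.Agent.H54.LQ.q_SLX

theorem r_ADG : T_ADG := Pool.Agent.H31.LPQ.pf_ADG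

theorem r_BSQ : T_BSQ := Pool.Agent.H94.LQ.pf_BSQ r_LBM r_BLE r_BQQ

theorem r_CSE : T_CSE := Pool.Agent.H1.LQ.pf_CSE

theorem r_CVG : T_CVG := Pool.Agent.H1.LQ.pf_CVG Pool.Agent.H7.LP.r_CJP Pool.Agent.H7.LP.r_CV

theorem r_ENC : T_ENC := Pool.Agent.H36.LQ.pf_ENC

theorem r_ESQ : T_ESQ := Pool.Agent.H86.LPQ.pf_ESQ

theorem r_ISQ : T_ISQ := Pool.Agent.H77.LQ.pf_ISQ

theorem r_LBT : T_LBT := Pool.Agent.H5.LQ.pf_LBT Pool.Agent.H7.LP.r_LAB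

theorem r_NCO : T_NCO := Pool.Agent.H35.LQ.pf_NCO r_LBT r_KKA

theorem r_PGR : T_PGR := Pool.Agent.H4.LQ.pf_PGR

theorem r_RCT : T_RCT := Pool.Agent.H49.LQ3.pf_RCT

theorem r_REQ : T_REQ := Pool.Agent.H25.LQ.pf_REQ r_RCT

theorem r_SAM : T_SAM := Pool.Agent.H55.LPQ.pf_SAM r_CSE r_LBT r_KKA

theorem r_SHQ : T_SHQ := Pool.Agent.H69.LQ.pf_SHQ r_LBT

theorem r_STX : T_STX := Pool.Agent.H37.LQ.pf_STX

theorem r_UNR : T_UNR := Pool.Agent.H19.LQ.pf_UNR Pool.Agent.H7.LP.r_EQV Pool.Agent.H7.LP.r_LSM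

theorem r_BCQ : T_BCQ := Pool.Agent.H55.LPQ.pf_BCQ r_LBT r_KKA r_BTG r_BKX r_NCO

theorem r_CDM : T_CDM := Pool.Agent.H55.LPQ.pf_CDM r_LBT r_KKA r_BTG r_NCO

theorem r_DRQ : T_DRQ := Pool.Agent.H61.LQ.pf_DRQ Pool.Agent.H7.LP.r_LAB r_LBT r_KKA

theorem r_INQ : T_INQ := Pool.Agent.H90.LQ.pf_INQ r_LBT r_NCO r_ADG r_KKA

theorem r_PRQ : T_PRQ := Pool.Agent.H1.LQ.pf_PRQ r_INQ Pool.Agent.H7.LP.r_MAT

theorem r_UMX : T_UMX := Pool.Agent.H55.LPQ.pf_UMX r_CDM r_LBM r_BLE r_BQQ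

theorem r_DIQ : T_DIQ := Pool.Agent.H12.LPQ.pf_DIQ r_LBT r_DRQ r_NCO r_ADG r_KKA

theorem r_RSR : T_RSR := Pool.Agent.H38.LQ.pf_RSR r_DIQ

theorem r_SEQ : T_SEQ := Pool.Agent.H55.LPQ.pf_SEQ r_LBT r_DIQ r_KKA

theorem r_RIQ : T_RIQ :=
  Pool.Agent.H37.LQ.pf_RIQ Pool.Agent.H7.LP.r_EQV Pool.Agent.H7.LP.r_LSM r_LBT r_KKA r_CVG r_RSR
    r_SAM

theorem r_SAQ : T_SAQ := Pool.Agent.H91.LP.pf_SAQ r_LBT r_KKA r_DIQ r_CVG r_SEQ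

theorem r_SBQ : T_SBQ := Pool.Agent.H19.LQ.pf_SBQ r_LBT r_KKA r_NCO r_ADG r_INQ r_SAQ

theorem r_SLQ : T_SLQ :=
  Pool.Agent.H64.LQ.pf_SLQ r_SLX r_REQ r_SAQ r_ESQ r_SBQ Pool.Agent.H7.LP.r_DIX r_UNR r_LBM r_BCQ
    r_BSQ r_SHQ r_CSE r_LBT

theorem r_ORQ : T_ORQ := Pool.Agent.H19.LQ.pf_ORQ r_PRQ r_ISQ r_SHQ r_RIQ

theorem r_TRS : T_TRS :=
  Pool.Agent.H21.LQ.pf_TRS Pool.Agent.H7.LP.r_HIT r_CAN r_BSX r_UMX r_SLQ r_ORQ r_ISQ r_ENC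

end Pool.Agent.H7.LQ
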