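import Pool.Agent.H7.LP.All2
import Pool.Agent.H93.CP.All
import Pool.Agent.H5.LR.PLC
import Pool.Agent.H1.LR.QLC
import Pool.Agent.H12.LR.WRH
import Pool.Agent.H76.LR.KSE
import Pool.Agent.H35.LR.KSP

/-!
# All rows of the board lpr_modules
-/

set_option autoImplicit false

namespace Pool.Agent.H7.LR

theorem r_PLC : T_PLC := Pool.Agent.H5.LR.pf_PLC

theorem r_QLC : T_QLC := Pool.Agent.H1.LR.pf_QLC r_PLC

theorem r_WRH : T_WRH := Pool.Agent.H12.LR.pf_WRH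

theorem r_KSE : T_KSE :=
  Pool.Agent.H76.LR.pf_KSE r_QLC r_WRH Pool.Agent.H7.LP.r_X3 Pool.Agent.H54.LP.pf_X4
    Pool.Agent.H54.LP.pf_X5 Pool.Agent.H93.CP.r_PCL

theorem r_KSP : T_KSP := Pool.Agent.H35.LR.pf_KSP

end Pool.Agent.H7.LR
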