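import Pool.Agent.H93.CP.Targets

/-!
# Groups with locally compact pieces: definitions
-/

set_option autoImplicit false

open Set Filter Topology

namespace Pool.Agent.H7.LP

open Pool.Agent.H93.CP

section Groups

variable {G : Type} [Group G] [TopologicalSpace G]

/-- `K₁` is relatively open in `K`. -/
def OpenIn (K₁ K : Subgroup G) : Prop := ∃ U ∈ 𝓝 (1 : G), ∀ g ∈ K, g ∈ U → g ∈ K₁

/-- `K` is covered by finitely many left cosets of `K₁`. -/
def FinIn (K₁ K : Subgroup G) : Prop := ∃ F : Set G, F.Finite ∧ ∀ g ∈ K, ∃ f ∈ F, f⁻¹ * g ∈ K₁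

/-- `K` is covered by compactly many left cosets of `A`. -/
def CptIn (A K : Subgroup G) : Prop := ∃ Q : Set G, IsCompact Q ∧ ∀ g ∈ K, ∃ q ∈ Q, q⁻¹ * g ∈ A

/-- Every relatively open subgroup of `K` which contains `R` has finitely many cosets in `K`. -/
def Tight (R K : Subgroup G) : Prop :=
  ∀ K₁ : Subgroup G, R ≤ K₁ → K₁ ≤ K → OpenIn K₁ K → FinIn K₁ K

/-- `R` is a closed normal subgroup of the open subgroup `H`, with locally compact quotient. -/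
structure Piece (R H : Subgroup G) : Prop where
  op : IsOpen (H : Set G)
  cl : IsClosed (R : Set G)
  le : R ≤ H
  nor : ∀ h ∈ H, ∀ r ∈ R, h * r * h⁻¹ ∈ R
  lc : ∃ C : Set G, IsCompact C ∧ {g : G | ∃ c ∈ C, c⁻¹ * g ∈ R} ∈ 𝓝 (1 : G)

/-- the conjugate `g⁻¹ K g` -/
def cj (g : G) (K : Subgroup G) : Subgroup G := K.comap (MulAut.conj g).toMonoidHom

omit [TopologicalSpace G] in
theorem mem_cj {g a : G} {K : Subgroup G} : a ∈ cj g K ↔ g * a * g⁻¹ ∈ K := Iff.rfl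

/-- translation of a sequence of sets -/
def tr (g : G) (c : ℕ → Set G) : ℕ → Set G := fun n => {a | a * g ∈ c n}

/-- the label: closures of the sets `c n * R` -/
def lab (R : Subgroup G) (c : ℕ → Set G) : ℕ → Set G :=
  fun n => closure {a | ∃ r ∈ R, a * r ∈ c n}

omit [TopologicalSpace G] in
theorem tr_one (c : ℕ → Set G) : tr 1 c = c := by
  funext n
  simp [tr]

omit [TopologicalSpace G] in
theorem tr_mul (g h : G) (c : ℕ → Set G) : tr (g * h) c = tr g (tr h c) := by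
  funext n
  simp [tr, mul_assoc]

/-- the elements of `H` which fix `y` -/
def Stb (H : Subgroup G) (y : ℕ → Set G) : Subgroup G where
  carrier := {h | h ∈ H ∧ tr h y = y}
  mul_mem' := by
    rintro a b ⟨ha, ha'⟩ ⟨hb, hb'⟩
    exact ⟨H.mul_mem ha hb, by rw [tr_mul, hb', ha']⟩
  one_mem' := ⟨H.one_mem, tr_one y⟩
  inv_mem' := by
    rintro a ⟨ha, ha'⟩
    refine ⟨H.inv_mem ha, ?_⟩
    have h1 : tr a⁻¹ (tr a y) = y := by rw [← tr_mul, inv_mul_cancel, tr_one]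
    rwa [ha'] at h1

omit [TopologicalSpace G] in
theorem mem_Stb {H : Subgroup G} {y : ℕ → Set G} {h : G} : h ∈ Stb H y ↔ h ∈ H ∧ tr h y = y :=
  Iff.rfl

end Groups

/-- `G` has locally compact pieces. -/
structure LPD (G : Type) [Group G] [TopologicalSpace G] where
  H : ℕ → Subgroup G
  R : ℕ → Subgroup G
  piece : ∀ k, Piece (R k) (H k)
  antH : ∀ k, H (k + 1) ≤ H k
  antR : ∀ k, R (k + 1) ≤ R k
  small : ∀ U ∈ 𝓝 (1 : G), ∃ k, ∀ r ∈ R k, r ∈ U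
  conj : ∀ (g : G) (k : ℕ), ∃ l, (∀ h ∈ H l, g * h * g⁻¹ ∈ H k) ∧ ∀ r ∈ R l, g * r * g⁻¹ ∈ R k

/-- Sequences of closed subsets of `G` which code the points of the `M`-space `X`. -/
structure Hit {G : Type} [Group G] [TopologicalSpace G] (M : Subgroup G) (X : Type)
    [MeasurableSpace X] [MulAction M X] where
  C : X → ℕ → Set G
  cl : ∀ x n, IsClosed (C x n)
  zero : ∀ x, C x 0 = (M : Set G)
  inj : ∀ x y, C x = C y → x = y
  smul : ∀ (m : M) (x : X), C (m • x) = tr (m : G) (C x)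
  meas : ∀ (n : ℕ) (U : Set G), IsOpen U → MeasurableSet {x : X | (C x n ∩ U).Nonempty}

section Systems

variable {G X : Type} [Group G] [TopologicalSpace G] {M : Subgroup G} [MeasurableSpace X]
  [MulAction M X]

/-- Countable sets of representatives of the labels of all levels. -/
structure Rep (L : LPD G) (Y : Hit M X) where
  Z : ℕ → Set (X × G)
  ctb : ∀ k, (Z k).Countable
  rep : ∀ (k : ℕ) (x : X) (g : G), ∃ h ∈ L.H k, ∃ z ∈ Z k,
    lab (L.R k) (tr (h * g) (Y.C x)) = lab (L.R k) (tr z.2 (Y.C z.1))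

/-- The types: level, label, subgroup of the stabilizer. -/
structure Ty {L : LPD G} {Y : Hit M X} (P : Rep L Y) where
  k : ℕ
  z : X × G
  K : Subgroup G
  mem : z ∈ P.Z k
  ge : L.R k ≤ K
  le : K ≤ Stb (L.H k) (lab (L.R k) (tr z.2 (Y.C z.1)))
  opn : OpenIn K (Stb (L.H k) (lab (L.R k) (tr z.2 (Y.C z.1))))
  tight : Tight (L.R k) K

/-- the conditions on the quotient `a` of two nodes -/
structure AdmA (L : LPD G) (k' : ℕ) (K' : Subgroup G) (k : ℕ) (K : Subgroup G) (a : G) : Prop where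
  mK : ∀ g ∈ K', a⁻¹ * g * a ∈ K
  mR : ∀ g ∈ L.R k', a⁻¹ * g * a ∈ L.R k
  mH : ∀ g ∈ L.H k', a⁻¹ * g * a ∈ L.H k

/-- Types (numbered, with repetitions allowed), and countably many quotients. -/
structure Sys (L : LPD G) (Y : Hit M X) where
  k : ℕ → ℕ
  y : ℕ → ℕ → Set G
  K : ℕ → Subgroup G
  ycl : ∀ q n, IsClosed (y q n)
  ge : ∀ q, L.R (k q) ≤ K q
  le : ∀ q, K q ≤ Stb (L.H (k q)) (y q)
  opn : ∀ q, OpenIn (K q) (Stb (L.H (k q)) (y q))
  tight : ∀ q, Tight (L.R (k q)) (K q)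
  ex : ∀ x : X, ∃ (q : ℕ) (g : G), lab (L.R (k q)) (tr g (Y.C x)) = y q
  dir : ∀ (x : X) (q₁ q₂ : ℕ) (g₁ g₂ : G) (m : ℕ),
    lab (L.R (k q₁)) (tr g₁ (Y.C x)) = y q₁ → lab (L.R (k q₂)) (tr g₂ (Y.C x)) = y q₂ →
    ∃ (q : ℕ) (g : G), lab (L.R (k q)) (tr g (Y.C x)) = y q ∧ m ≤ k q ∧ g ∈ L.H (k q) ∧
      AdmA L (k q) (K q) (k q₁) (K q₁) (g * g₁⁻¹) ∧ AdmA L (k q) (K q) (k q₂) (K q₂) (g * g₂⁻¹)
  gm : ℕ → G
  gam : ∀ (x : X) (q' q : ℕ) (g' g : G), lab (L.R (k q')) (tr g' (Y.C x)) = y q' →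
    lab (L.R (k q)) (tr g (Y.C x)) = y q → AdmA L (k q') (K q') (k q) (K q) (g' * g⁻¹) →
    ∃ n, (gm n)⁻¹ * (g' * g⁻¹) ∈ K q
  kap : ℕ → ℕ → G
  kapK : ∀ q n, kap q n ∈ K q
  kapD : ∀ (q : ℕ), ∀ g ∈ K q, ∀ U ∈ 𝓝 g, ∃ n, kap q n ∈ U

/-- structures -/
abbrev St : Type := (ℕ × ℕ) × (ℕ × ℕ) × ℕ → Bool

/-- the group which acts on structures -/
abbrev Pg : Type := ℕ → Equiv.Perm ℕ

/-- its action on indices -/
def mv (π : Pg) (i : ℕ × ℕ) : ℕ × ℕ := (i.1, π i.1 i.2)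

/-- `w` and `w'` are isomorphic -/
def Iso (w w' : St) : Prop := ∃ π : Pg, ∀ i j n, w' (i, j, n) = w (mv π i, mv π j, n)

/-- the type of `i` occurs in the structure -/
def pres (w : St) (q : ℕ) : Prop := ∃ n, w ((q, 0), (q, 0), n) = true

namespace Sys

variable {L : LPD G} {Y : Hit M X} (S : Sys L Y)

/-- `(q, g)` is a node of `x` -/
def Node (x : X) (q : ℕ) (g : G) : Prop := lab (L.R (S.k q)) (tr g (Y.C x)) = S.y q

/-- admissible quotients -/
def Adm (q' q : ℕ) (a : G) : Prop := AdmA L (S.k q') (S.K q') (S.k q) (S.K q) a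

/-- codes of `x` -/
structure IsCode (x : X) (e : ℕ × ℕ → G) : Prop where
  node : ∀ q g, S.Node x q g → ∀ j, S.Node x q (e (q, j))
  all : ∀ q g, S.Node x q g → ∀ N : ℕ, ∃ j, N ≤ j ∧ g * (e (q, j))⁻¹ ∈ S.K q

/-- the structure of a code -/
def IsStr (x : X) (e : ℕ × ℕ → G) (w : St) : Prop :=
  ∀ i j n, w (i, j, n) = true ↔ (∃ g, S.Node x i.1 g) ∧ (∃ g, S.Node x j.1 g) ∧
    S.Adm i.1 j.1 (e i * (e j)⁻¹) ∧ (S.gm n)⁻¹ * (e i * (e j)⁻¹) ∈ S.K j.1

/-- the set of all structures of codes -/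
def W : Set St := {w | ∃ x e, S.IsCode x e ∧ S.IsStr x e w}

/-- The step of the recursion: from the index `i` and `b` to `i'` and `b'`. -/
structure Step (w : St) (s : ℕ) (i : ℕ × ℕ) (b : G) (i' : ℕ × ℕ) (b' : G) : Prop where
  quo : ∃ n m, w (i', i, n) = true ∧ b' = S.gm n * S.kap i.1 m * b
  cof : pres w (Nat.unpair s).1 → ∃ n, w (i', Nat.unpair s, n) = true
  sml : ∀ r ∈ L.R (S.k i'.1), b'⁻¹ * r * b' ∈ L.R s

end Sys

end Systems

end Pool.Agent.H7.LP
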