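import Pool.Agent.H7.LP.Targets2

/-!
# Groups with locally compact pieces, the strong transfer: definitions

No hypothesis on the number of orbits. The labels of a level are the points of a Borel space on
which a locally compact group acts; canonical labels meet each orbit in a countable set.
-/

set_option autoImplicit false

open Set Filter Topology

namespace Pool.Agent.H7.LQ

open Pool.Agent.H93.CP Pool.Agent.H7.LP

/-- A countable basis of `G`, and a decreasing basis of symmetric neighbourhoods of `1`. -/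
structure Bs (G : Type) [Group G] [TopologicalSpace G] where
  U : ℕ → Set G
  opn : ∀ p, IsOpen (U p)
  bas : ∀ (a : G), ∀ O ∈ 𝓝 a, ∃ p, a ∈ U p ∧ U p ⊆ O
  N : ℕ → Set G
  nopn : ∀ m, IsOpen (N m)
  none : ∀ m, (1 : G) ∈ N m
  ninv : ∀ m, ∀ g ∈ N m, g⁻¹ ∈ N m
  nant : ∀ m, N (m + 1) ⊆ N m
  nbas : ∀ O ∈ 𝓝 (1 : G), ∃ m, N m ⊆ O

section Defs

variable {G X : Type} [Group G] [TopologicalSpace G] {M : Subgroup G} [MeasurableSpace X]
  [MulAction M X]

/-- the code of a sequence of closed sets: which basic open sets are met -/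
def Hc (B : Bs G) (y : ℕ → Set G) (c : ℕ × ℕ → Bool) : Prop :=
  ∀ n p, c (n, p) = true ↔ (y n ∩ B.U p).Nonempty

/-- the label of level `k` of `x` at `g` -/
def lb (L : LPD G) (Y : Hit M X) (k : ℕ) (x : X) (g : G) : ℕ → Set G :=
  lab (L.R k) (tr g (Y.C x))

/-- the group generated by the small elements (modulo `R`) of the stabilizer of `y` in `H` -/
def KK (R H : Subgroup G) (y : ℕ → Set G) (N : Set G) : Subgroup G :=
  Subgroup.closure {h | h ∈ Stb H y ∧ ∃ r ∈ R, h * r ∈ N}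

/-- the subgroup of the node `(k, m, g)` of `x` -/
def KX (B : Bs G) (L : LPD G) (Y : Hit M X) (k m : ℕ) (x : X) (g : G) : Subgroup G :=
  KK (L.R k) (L.H k) (lb L Y k x g) (B.N m)

/-- Canonical labels: they meet the orbit of each label of level `k`, in a countable set, and they
can be enumerated in a Borel way. -/
structure Canon (L : LPD G) (Y : Hit M X) [MeasurableSpace G] where
  Can : ℕ → (ℕ → Set G) → Prop
  ex : ∀ (k : ℕ) (y : ℕ → Set G), (∀ n, IsClosed (y n)) → lab (L.R k) y = y →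
    ∃ h ∈ L.H k, Can k (tr h y)
  nu : ℕ → ℕ → X → G
  meas : ∀ k n, Measurable (nu k n)
  can : ∀ k n x, Can k (lb L Y k x (nu k n x))
  all : ∀ (k : ℕ) (x : X) (g : G), Can k (lb L Y k x g) → ∀ O ∈ 𝓝 g,
    ∃ n, nu k n x ∈ O ∧ lb L Y k x (nu k n x) = lb L Y k x g
  bor : ∀ k, MeasurableSet {p : X × G | Can k (lb L Y k p.1 p.2)}

/-- structures: for each index a level, a number, the code of a label; for each pair of indices a
bit and the code of a closed set -/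
abbrev St2 : Type := (ℕ → ℕ × ℕ × (ℕ × ℕ → Bool)) × (ℕ → ℕ → Bool × (ℕ → Bool))

/-- isomorphism of structures -/
def Iso2 (w w' : St2) : Prop :=
  ∃ π : Equiv.Perm ℕ, (∀ i, w'.1 i = w.1 (π i)) ∧ ∀ i j, w'.2 i j = w.2 (π i) (π j)

variable [MeasurableSpace G] {L : LPD G} {Y : Hit M X}

/-- `(k, m, g)` is a node of `x` -/
def Nd (B : Bs G) (S : Canon L Y) (x : X) (v : ℕ × ℕ × G) : Prop :=
  S.Can v.1 (lb L Y v.1 x v.2.2) ∧ Tight (L.R v.1) (KX B L Y v.1 v.2.1 x v.2.2)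

/-- order of nodes -/
def Le (B : Bs G) (L : LPD G) (Y : Hit M X) (x : X) (v' v : ℕ × ℕ × G) : Prop :=
  AdmA L v'.1 (KX B L Y v'.1 v'.2.1 x v'.2.2) v.1 (KX B L Y v.1 v.2.1 x v.2.2)
    (v'.2.2 * (v.2.2)⁻¹)

/-- codes of `x` -/
structure IsCd (B : Bs G) (S : Canon L Y) (x : X) (e : ℕ → ℕ × ℕ × G) : Prop where
  node : ∀ i, Nd B S x (e i)
  all : ∀ (k m : ℕ) (g : G), Nd B S x (k, m, g) → ∀ N : ℕ, ∃ i, N ≤ i ∧ (e i).1 = k ∧
    (e i).2.1 = m ∧ g * ((e i).2.2)⁻¹ ∈ KX B L Y k m x (e i).2.2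

/-- the structure of a code -/
structure IsSt (B : Bs G) (L : LPD G) (Y : Hit M X) (x : X) (e : ℕ → ℕ × ℕ × G) (w : St2) :
    Prop where
  k : ∀ i, (w.1 i).1 = (e i).1
  m : ∀ i, (w.1 i).2.1 = (e i).2.1
  y : ∀ i, Hc B (lb L Y (e i).1 x (e i).2.2) (w.1 i).2.2
  le : ∀ i j, (w.2 i j).1 = true ↔ Le B L Y x (e i) (e j)
  q : ∀ i j p, (w.2 i j).2 p = true ↔ Le B L Y x (e i) (e j) ∧
    ∃ u ∈ KX B L Y (e j).1 (e j).2.1 x (e j).2.2, (e i).2.2 * ((e j).2.2)⁻¹ * u ∈ B.U p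

/-- the set of all structures of codes -/
def W2 (B : Bs G) (S : Canon L Y) : Set St2 := {w | ∃ x e, IsCd B S x e ∧ IsSt B L Y x e w}

/-- the closed set with code `c` -/
def cs (B : Bs G) (c : ℕ → Bool) : Set G := {a | ∀ p, a ∈ B.U p → c p = true}

/-- Selectors: `sel c n` are dense points of `cs B c` if it is nonempty and `c` is its code. -/
structure IsSel (B : Bs G) (sel : (ℕ → Bool) → ℕ → G) : Prop where
  meas : ∀ n, Measurable fun c => sel c n
  mem : ∀ (F : Set G) (c : ℕ → Bool), IsClosed F → F.Nonempty →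
    (∀ p, c p = true ↔ (F ∩ B.U p).Nonempty) → ∀ n, sel c n ∈ F
  den : ∀ (F : Set G) (c : ℕ → Bool), IsClosed F → F.Nonempty →
    (∀ p, c p = true ↔ (F ∩ B.U p).Nonempty) → ∀ g ∈ F, ∀ O ∈ 𝓝 g, ∃ n, sel c n ∈ O

/-- The step of the recursion, from `(i, b)` to `(i', b')`; `b'` is a selected point of the coset
`g_i' g_i⁻¹ K_i`, times `b`. -/
structure Step2 (L : LPD G) (sel : (ℕ → Bool) → ℕ → G) (w : St2) (s : ℕ) (i : ℕ) (b : G) (i' : ℕ)
    (b' : G) : Prop where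
  le : (w.2 i' i).1 = true
  quo : ∃ n, b' = sel (w.2 i' i).2 n * b
  cof : (w.2 i' s).1 = true
  sml : ∀ r ∈ L.R (w.1 i').1, b'⁻¹ * r * b' ∈ L.R s

/-- what the recursion gives -/
structure IsRec2 (L : LPD G) (sel : (ℕ → Bool) → ℕ → G) (F : St2 → ℕ → ℕ × G) : Prop where
  meas : ∀ s, Measurable fun w => F w s
  zero : ∀ w, F w 0 = (0, 1)
  step : ∀ w s, (∃ i' b', Step2 L sel w s (F w s).1 (F w s).2 i' b') →
    Step2 L sel w s (F w s).1 (F w s).2 (F w (s + 1)).1 (F w (s + 1)).2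

end Defs

end Pool.Agent.H7.LQ
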