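import Pool.Agent.H7.LP.Defs2

/-!
# Targets of the board lpq_modules (strong transfer)
-/

set_option autoImplicit false

open Set Filter Topology

namespace Pool.Agent.H7.LQ

open Pool.Agent.H93.CP Pool.Agent.H7.LP

/-! ### A. Canonical labels -/

/-- Canonical labels exist. -/
def T_CAN : Prop :=
  ∀ (G X : Type) [Group G] [TopologicalSpace G] [IsTopologicalGroup G] [PolishSpace G]
    [MeasurableSpace G] [BorelSpace G] [MeasurableSpace X] [StandardBorelSpace X] (L : LPD G)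
    (M : Subgroup G) [MulAction M X] (Y : Hit M X), Nonempty (Canon L Y)

/-! ### B. Selectors, stabilizers, Borel sets -/

/-- Bases exist. -/
def T_BSX : Prop :=
  ∀ (G : Type) [Group G] [TopologicalSpace G] [IsTopologicalGroup G] [PolishSpace G],
    Nonempty (Bs G)

/-- Selectors exist. -/
def T_SLX : Prop :=
  ∀ (G : Type) [Group G] [TopologicalSpace G] [IsTopologicalGroup G] [PolishSpace G]
    [MeasurableSpace G] [BorelSpace G] (B : Bs G), ∃ sel, IsSel B sel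

/-- The groups generated by small elements of a stabilizer. -/
def T_KKA : Prop :=
  ∀ (G : Type) [Group G] [TopologicalSpace G] [IsTopologicalGroup G] [PolishSpace G] (B : Bs G)
    (R H : Subgroup G) (y : ℕ → Set G), Piece R H → (∀ n, IsClosed (y n)) → lab R y = y →
    (∀ m, R ≤ KK R H y (B.N m)) ∧ (∀ m, KK R H y (B.N m) ≤ Stb H y) ∧
    (∀ m, OpenIn (KK R H y (B.N m)) (Stb H y)) ∧
    (∀ m, IsClosed (KK R H y (B.N m) : Set G)) ∧
    (∀ m, KK R H y (B.N (m + 1)) ≤ KK R H y (B.N m)) ∧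
    ∀ O : Subgroup G, R ≤ O → O ≤ Stb H y → OpenIn O (Stb H y) →
      ∃ m, KK R H y (B.N m) ≤ O ∧ Tight R (KK R H y (B.N m))

/-- Labels are Borel. -/
def T_LBM : Prop :=
  ∀ (G X : Type) [Group G] [TopologicalSpace G] [IsTopologicalGroup G] [PolishSpace G]
    [MeasurableSpace G] [BorelSpace G] [MeasurableSpace X] [StandardBorelSpace X] (L : LPD G)
    (M : Subgroup G) [MulAction M X] (Y : Hit M X) (k n : ℕ) (U : Set G), IsOpen U →
    MeasurableSet {p : X × G | (lb L Y k p.1 p.2 n ∩ U).Nonempty}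

/-- Membership in the group of a node is Borel. -/
def T_BKX : Prop :=
  ∀ (G X : Type) [Group G] [TopologicalSpace G] [IsTopologicalGroup G] [PolishSpace G]
    [MeasurableSpace G] [BorelSpace G] [MeasurableSpace X] [StandardBorelSpace X] (B : Bs G)
    (L : LPD G) (M : Subgroup G) [MulAction M X] (Y : Hit M X) (k m : ℕ),
    MeasurableSet {p : (X × G) × G | p.2 ∈ KX B L Y k m p.1.1 p.1.2}

/-- Tightness is Borel. -/
def T_BTG : Prop :=
  ∀ (G X : Type) [Group G] [TopologicalSpace G] [IsTopologicalGroup G] [PolishSpace G]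
    [MeasurableSpace G] [BorelSpace G] [MeasurableSpace X] [StandardBorelSpace X] (B : Bs G)
    (L : LPD G) (M : Subgroup G) [MulAction M X] (Y : Hit M X) (k m : ℕ),
    MeasurableSet {p : X × G | Tight (L.R k) (KX B L Y k m p.1 p.2)}

/-- The order of nodes is Borel. -/
def T_BLE : Prop :=
  ∀ (G X : Type) [Group G] [TopologicalSpace G] [IsTopologicalGroup G] [PolishSpace G]
    [MeasurableSpace G] [BorelSpace G] [MeasurableSpace X] [StandardBorelSpace X] (B : Bs G)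
    (L : LPD G) (M : Subgroup G) [MulAction M X] (Y : Hit M X) (k' m' k m : ℕ),
    MeasurableSet {p : X × G × G | Le B L Y p.1 (k', m', p.2.1) (k, m, p.2.2)}

/-- The cosets of quotients are Borel. -/
def T_BQQ : Prop :=
  ∀ (G X : Type) [Group G] [TopologicalSpace G] [IsTopologicalGroup G] [PolishSpace G]
    [MeasurableSpace G] [BorelSpace G] [MeasurableSpace X] [StandardBorelSpace X] (B : Bs G)
    (L : LPD G) (M : Subgroup G) [MulAction M X] (Y : Hit M X) (k m : ℕ) (U : Set G), IsOpen U →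
    MeasurableSet {p : X × G × G | ∃ u ∈ KX B L Y k m p.1 p.2.2, p.2.1 * (p.2.2)⁻¹ * u ∈ U}

/-! ### C. Nodes -/

/-- Closed sets with the same code are equal. -/
def T_CSE : Prop :=
  ∀ (G : Type) [Group G] [TopologicalSpace G] (B : Bs G) (F F' : Set G), IsClosed F →
    IsClosed F' → (∀ p, (F ∩ B.U p).Nonempty ↔ (F' ∩ B.U p).Nonempty) → F = F'

/-- Translation of labels. -/
def T_LBT : Prop :=
  ∀ (G X : Type) [Group G] [TopologicalSpace G] [IsTopologicalGroup G]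
    [MeasurableSpace X] (L : LPD G) (M : Subgroup G) [MulAction M X] (Y : Hit M X) (k : ℕ) (x : X)
    (g : G), (∀ n, IsClosed (lb L Y k x g n)) ∧ lab (L.R k) (lb L Y k x g) = lb L Y k x g ∧
    (∀ h ∈ L.H k, lb L Y k x (h * g) = tr h (lb L Y k x g)) ∧
    ∀ m : M, lb L Y k (m • x) g = lb L Y k x (g * m)

/-- The elements of a coset of a node are nodes, with the same label and group. -/
def T_NCO : Prop :=
  ∀ (G X : Type) [Group G] [TopologicalSpace G] [IsTopologicalGroup G] [PolishSpace G]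
    [MeasurableSpace G] [MeasurableSpace X] (B : Bs G) (L : LPD G) (M : Subgroup G)
    [MulAction M X] (Y : Hit M X) (S : Canon L Y) (k m : ℕ) (x : X) (g : G),
    ∀ u ∈ KX B L Y k m x g, lb L Y k x (u * g) = lb L Y k x g ∧
      KX B L Y k m x (u * g) = KX B L Y k m x g ∧ (Nd B S x (k, m, u * g) ↔ Nd B S x (k, m, g))

/-- Admissible quotients. -/
def T_ADG : Prop :=
  ∀ (G : Type) [Group G] [TopologicalSpace G] [IsTopologicalGroup G] (L : LPD G) (k' k : ℕ)
    (K' K : Subgroup G) (a g' g : G), K' ≤ L.H k' → K ≤ L.H k → AdmA L k' K' k K a → g' ∈ K' →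
    g ∈ K → AdmA L k' K' k K (g' * a * g) ∧ a⁻¹ * (g' * a * g) ∈ K

/-- Common lower nodes. -/
def T_DRQ : Prop :=
  ∀ (G X : Type) [Group G] [TopologicalSpace G] [IsTopologicalGroup G] [PolishSpace G]
    [MeasurableSpace G] [MeasurableSpace X] (B : Bs G) (L : LPD G) (M : Subgroup G)
    [MulAction M X] (Y : Hit M X) (S : Canon L Y) (x : X) (v₁ v₂ : ℕ × ℕ × G) (m : ℕ),
    Nd B S x v₁ → Nd B S x v₂ →
    ∃ v : ℕ × ℕ × G, Nd B S x v ∧ m ≤ v.1 ∧ v.2.2 ∈ L.H v.1 ∧ Le B L Y x v v₁ ∧ Le B L Y x v v₂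

/-- Convergence for nodes. -/
def T_CVG : Prop :=
  ∀ (G : Type) [Group G] [TopologicalSpace G] [IsTopologicalGroup G] [PolishSpace G] (L : LPD G)
    (k : ℕ → ℕ) (K : ℕ → Subgroup G) (g g' : ℕ → G), (∀ s, L.R (k s) ≤ K s) →
    (∀ s, K s ≤ L.H (k s)) → (∀ s, IsClosed (K s : Set G)) → (∀ s, Tight (L.R (k s)) (K s)) →
    (∀ s, AdmA L (k (s + 1)) (K (s + 1)) (k s) (K s) (g (s + 1) * (g s)⁻¹)) →
    (∀ s, (g (s + 1) * (g s)⁻¹)⁻¹ * (g' (s + 1) * (g' s)⁻¹) ∈ K s) →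
    (∀ U ∈ 𝓝 (1 : G), ∃ s, ∀ r ∈ L.R (k s), (g s)⁻¹ * r * g s ∈ U) →
    (∀ U ∈ 𝓝 (1 : G), ∃ s, ∀ r ∈ L.R (k s), (g' s)⁻¹ * r * g' s ∈ U) →
    ∃ a, ∀ s, g' s * a * (g s)⁻¹ ∈ K s

/-! ### D. Codes -/

/-- Structures of codes exist. -/
def T_STX : Prop :=
  ∀ (G X : Type) [Group G] [TopologicalSpace G]
    [MeasurableSpace G] [MeasurableSpace X] (B : Bs G) (L : LPD G) (M : Subgroup G)
    [MulAction M X] (Y : Hit M X) (x : X) (e : ℕ → ℕ × ℕ × G), ∃ w, IsSt B L Y x e w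

/-- Codes and structures depend only on cosets. -/
def T_INQ : Prop :=
  ∀ (G X : Type) [Group G] [TopologicalSpace G] [IsTopologicalGroup G] [PolishSpace G]
    [MeasurableSpace G] [MeasurableSpace X] (B : Bs G) (L : LPD G) (M : Subgroup G)
    [MulAction M X] (Y : Hit M X) (S : Canon L Y) (x : X) (e e' : ℕ → ℕ × ℕ × G),
    IsCd B S x e → (∀ i, (e' i).1 = (e i).1 ∧ (e' i).2.1 = (e i).2.1 ∧
      (e' i).2.2 * ((e i).2.2)⁻¹ ∈ KX B L Y (e i).1 (e i).2.1 x (e i).2.2) →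
    IsCd B S x e' ∧ ∀ w, IsSt B L Y x e w → IsSt B L Y x e' w

/-- The structures of two codes of a point are isomorphic. -/
def T_PRQ : Prop :=
  ∀ (G X : Type) [Group G] [TopologicalSpace G] [IsTopologicalGroup G] [PolishSpace G]
    [MeasurableSpace G] [MeasurableSpace X] (B : Bs G) (L : LPD G) (M : Subgroup G)
    [MulAction M X] (Y : Hit M X) (S : Canon L Y) (x : X) (e e' : ℕ → ℕ × ℕ × G) (w w' : St2),
    IsCd B S x e → IsCd B S x e' → IsSt B L Y x e w → IsSt B L Y x e' w' → Iso2 w w'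

/-- Isomorphic structures. -/
def T_ISQ : Prop :=
  ∀ (G X : Type) [Group G] [TopologicalSpace G]
    [MeasurableSpace G] [MeasurableSpace X] (B : Bs G) (L : LPD G) (M : Subgroup G)
    [MulAction M X] (Y : Hit M X) (S : Canon L Y) (x : X) (e : ℕ → ℕ × ℕ × G) (w w' : St2),
    IsCd B S x e → IsSt B L Y x e w → Iso2 w w' → ∃ e', IsCd B S x e' ∧ IsSt B L Y x e' w'

/-- Codes of the points of an orbit. -/
def T_SHQ : Prop :=
  ∀ (G X : Type) [Group G] [TopologicalSpace G] [IsTopologicalGroup G]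
    [MeasurableSpace G] [MeasurableSpace X] (B : Bs G) (L : LPD G) (M : Subgroup G)
    [MulAction M X] (Y : Hit M X) (S : Canon L Y) (x : X) (m : M) (e : ℕ → ℕ × ℕ × G) (w : St2),
    IsCd B S x e → IsSt B L Y x e w →
    IsCd B S (m • x) (fun i => ((e i).1, (e i).2.1, (e i).2.2 * (m : G)⁻¹)) ∧
      IsSt B L Y (m • x) (fun i => ((e i).1, (e i).2.1, (e i).2.2 * (m : G)⁻¹)) w

/-- Common lower indices. -/
def T_DIQ : Prop :=
  ∀ (G X : Type) [Group G] [TopologicalSpace G] [IsTopologicalGroup G] [PolishSpace G]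
    [MeasurableSpace G] [MeasurableSpace X] (B : Bs G) (L : LPD G) (M : Subgroup G)
    [MulAction M X] (Y : Hit M X) (S : Canon L Y) (x : X) (e : ℕ → ℕ × ℕ × G) (w : St2),
    IsCd B S x e → IsSt B L Y x e w → ∀ i j m : ℕ,
    ∃ l : ℕ, m ≤ (w.1 l).1 ∧ (e l).2.2 ∈ L.H (w.1 l).1 ∧ (w.2 l i).1 = true ∧ (w.2 l j).1 = true

/-- A sequence of indices which is good for two codes. -/
def T_RSR : Prop :=
  ∀ (G X : Type) [Group G] [TopologicalSpace G] [IsTopologicalGroup G] [PolishSpace G]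
    [MeasurableSpace G] [MeasurableSpace X] (B : Bs G) (L : LPD G) (M : Subgroup G)
    [MulAction M X] (Y : Hit M X) (S : Canon L Y) (x x' : X) (e e' : ℕ → ℕ × ℕ × G) (w : St2),
    IsCd B S x e → IsCd B S x' e' → IsSt B L Y x e w → IsSt B L Y x' e' w →
    ∃ i : ℕ → ℕ, (∀ s, (w.2 (i (s + 1)) (i s)).1 = true) ∧
      (∀ m, ∃ s, m ≤ (w.1 (i s)).1 ∧ (e (i s)).2.2 ∈ L.H (w.1 (i s)).1) ∧
      ∀ m, ∃ s, m ≤ (w.1 (i s)).1 ∧ (e' (i s)).2.2 ∈ L.H (w.1 (i s)).1

/-- Two codes with the same structure have the same labels, groups and cosets of quotients. -/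
def T_SAM : Prop :=
  ∀ (G X : Type) [Group G] [TopologicalSpace G] [IsTopologicalGroup G] [PolishSpace G]
    [MeasurableSpace G] [MeasurableSpace X] (B : Bs G) (L : LPD G) (M : Subgroup G)
    [MulAction M X] (Y : Hit M X) (x x' : X) (e e' : ℕ → ℕ × ℕ × G) (w : St2),
    IsSt B L Y x e w → IsSt B L Y x' e' w →
    (∀ i, (e' i).1 = (e i).1 ∧ (e' i).2.1 = (e i).2.1 ∧
      lb L Y (e i).1 x (e i).2.2 = lb L Y (e i).1 x' (e' i).2.2 ∧
      KX B L Y (e i).1 (e i).2.1 x' (e' i).2.2 = KX B L Y (e i).1 (e i).2.1 x (e i).2.2) ∧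
    ∀ i j, (w.2 i j).1 = true →
      ((e i).2.2 * ((e j).2.2)⁻¹)⁻¹ * ((e' i).2.2 * ((e' j).2.2)⁻¹) ∈
        KX B L Y (e j).1 (e j).2.1 x (e j).2.2

/-- Points with equal structures are in one orbit. -/
def T_RIQ : Prop :=
  ∀ (G X : Type) [Group G] [TopologicalSpace G] [IsTopologicalGroup G] [PolishSpace G]
    [MeasurableSpace G] [MeasurableSpace X] (B : Bs G) (L : LPD G) (M : Subgroup G)
    [MulAction M X] (Y : Hit M X) (S : Canon L Y) (x x' : X) (e e' : ℕ → ℕ × ℕ × G) (w : St2),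
    IsCd B S x e → IsCd B S x' e' → IsSt B L Y x e w → IsSt B L Y x' e' w → ∃ m : M, m • x = x'

/-! ### E. Recursion and selection -/

/-- Measurable recursion. -/
def T_RCT : Prop :=
  ∀ (Ω A : Type) [MeasurableSpace Ω] [MeasurableSpace A] (a₀ : A) (t : ℕ → ℕ → Ω × A → A)
    (P : ℕ → ℕ → Set (Ω × A)), (∀ s n, Measurable (t s n)) → (∀ s n, MeasurableSet (P s n)) →
    ∃ F : Ω → ℕ → A, (∀ s, Measurable fun ω => F ω s) ∧ (∀ ω, F ω 0 = a₀) ∧
      ∀ ω s, (∃ n, (ω, F ω s) ∈ P s n) → ∃ n, (ω, F ω s) ∈ P s n ∧ F ω (s + 1) = t s n (ω, F ω s)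

/-- The recursion. -/
def T_REQ : Prop :=
  ∀ (G : Type) [Group G] [TopologicalSpace G] [IsTopologicalGroup G] [PolishSpace G]
    [MeasurableSpace G] [BorelSpace G] (B : Bs G) (L : LPD G) (sel : (ℕ → Bool) → ℕ → G),
    IsSel B sel → ∃ F : St2 → ℕ → ℕ × G, IsRec2 L sel F

/-- Steps exist for structures of codes. -/
def T_SEQ : Prop :=
  ∀ (G X : Type) [Group G] [TopologicalSpace G] [IsTopologicalGroup G] [PolishSpace G]
    [MeasurableSpace G] [MeasurableSpace X] (B : Bs G) (L : LPD G) (M : Subgroup G)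
    [MulAction M X] (Y : Hit M X) (S : Canon L Y) (sel : (ℕ → Bool) → ℕ → G), IsSel B sel →
    ∀ (x : X) (e : ℕ → ℕ × ℕ × G) (w : St2), IsCd B S x e → IsSt B L Y x e w →
    ∀ (s i : ℕ) (b : G), ∃ i' b', Step2 L sel w s i b i' b'

/-- The element `a`. -/
def T_SAQ : Prop :=
  ∀ (G X : Type) [Group G] [TopologicalSpace G] [IsTopologicalGroup G] [PolishSpace G]
    [MeasurableSpace G] [MeasurableSpace X] (B : Bs G) (L : LPD G) (M : Subgroup G)
    [MulAction M X] (Y : Hit M X) (S : Canon L Y) (sel : (ℕ → Bool) → ℕ → G)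
    (F : St2 → ℕ → ℕ × G), IsSel B sel → IsRec2 L sel F →
    ∀ (x : X) (e : ℕ → ℕ × ℕ × G) (w : St2), IsCd B S x e → IsSt B L Y x e w →
      (∀ s, Step2 L sel w s (F w s).1 (F w s).2 (F w (s + 1)).1 (F w (s + 1)).2) ∧
      ∃ a : G, ∀ s, (F w s).2 * a * ((e (F w s).1).2.2)⁻¹ ∈
        KX B L Y (e (F w s).1).1 (e (F w s).1).2.1 x (e (F w s).1).2.2

/-- The canonical code. -/
def T_ESQ : Prop :=
  ∀ (G : Type) [Group G] [TopologicalSpace G] [IsTopologicalGroup G] [PolishSpace G]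
    [MeasurableSpace G] [BorelSpace G] (B : Bs G) (sel : (ℕ → Bool) → ℕ → G)
    (F : St2 → ℕ → ℕ × G), IsSel B sel → (∀ s, Measurable fun w => F w s) →
    ∃ E : St2 → ℕ → G, (∀ i, Measurable fun w => E w i) ∧
      ∀ w i, (∃ s, (w.2 (F w s).1 i).1 = true) →
        ∃ s, (w.2 (F w s).1 i).1 = true ∧ E w i = (sel (w.2 (F w s).1 i).2 0)⁻¹ * (F w s).2

/-- The canonical code is a code with the same structure. -/
def T_SBQ : Prop :=
  ∀ (G X : Type) [Group G] [TopologicalSpace G] [IsTopologicalGroup G] [PolishSpace G]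
    [MeasurableSpace G] [MeasurableSpace X] (B : Bs G) (L : LPD G) (M : Subgroup G)
    [MulAction M X] (Y : Hit M X) (S : Canon L Y) (sel : (ℕ → Bool) → ℕ → G)
    (F : St2 → ℕ → ℕ × G) (E : St2 → ℕ → G), IsSel B sel → IsRec2 L sel F →
    (∀ w i, (∃ s, (w.2 (F w s).1 i).1 = true) →
        ∃ s, (w.2 (F w s).1 i).1 = true ∧ E w i = (sel (w.2 (F w s).1 i).2 0)⁻¹ * (F w s).2) →
    ∀ (x : X) (e : ℕ → ℕ × ℕ × G) (w : St2) (a : G), IsCd B S x e → IsSt B L Y x e w →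
      (∀ s, (F w s).2 * a * ((e (F w s).1).2.2)⁻¹ ∈
        KX B L Y (e (F w s).1).1 (e (F w s).1).2.1 x (e (F w s).1).2.2) →
      (∀ s, Hc B (lb L Y (w.1 (F w s).1).1 x ((F w s).2 * a)) (w.1 (F w s).1).2.2) ∧
      IsCd B S x (fun i => ((w.1 i).1, (w.1 i).2.1, E w i * a)) ∧
      IsSt B L Y x (fun i => ((w.1 i).1, (w.1 i).2.1, E w i * a)) w

/-- Uniqueness. -/
def T_UNR : Prop :=
  ∀ (G X : Type) [Group G] [TopologicalSpace G] [IsTopologicalGroup G]
    [MeasurableSpace X] (L : LPD G) (M : Subgroup G) [MulAction M X]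
    (Y : Hit M X) (σ : G → G), (∀ g, ∃ m ∈ M, σ g = g * m) →
    (∀ g, ∀ m ∈ M, σ (g * m) = σ g) → ∀ (k : ℕ → ℕ) (b : ℕ → G) (x x' : X) (a a' : G),
    σ a = a → σ a' = a' → (∀ s, lb L Y (k s) x (b s * a) = lb L Y (k s) x' (b s * a')) →
    (∀ s, ∀ r ∈ L.R (k (s + 1)), (b (s + 1))⁻¹ * r * b (s + 1) ∈ L.R s) → x = x' ∧ a = a'

/-- Codes are Borel. -/
def T_BCQ : Prop :=
  ∀ (G X : Type) [Group G] [TopologicalSpace G] [IsTopologicalGroup G] [PolishSpace G]
    [MeasurableSpace G] [BorelSpace G] [MeasurableSpace X] [StandardBorelSpace X] (B : Bs G)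
    (L : LPD G) (M : Subgroup G) [MulAction M X] (Y : Hit M X) (S : Canon L Y),
    MeasurableSet {p : X × (ℕ → ℕ × ℕ × G) | IsCd B S p.1 p.2}

/-- Structures are Borel. -/
def T_BSQ : Prop :=
  ∀ (G X : Type) [Group G] [TopologicalSpace G] [IsTopologicalGroup G] [PolishSpace G]
    [MeasurableSpace G] [BorelSpace G] [MeasurableSpace X] [StandardBorelSpace X] (B : Bs G)
    (L : LPD G) (M : Subgroup G) [MulAction M X] (Y : Hit M X),
    MeasurableSet {p : X × (ℕ → ℕ × ℕ × G) × St2 | IsSt B L Y p.1 p.2.1 p.2.2}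

/-- A Borel map to structures. -/
def T_UMX : Prop :=
  ∀ (G X : Type) [Group G] [TopologicalSpace G] [IsTopologicalGroup G] [PolishSpace G]
    [MeasurableSpace G] [BorelSpace G] [MeasurableSpace X] [StandardBorelSpace X] (B : Bs G)
    (L : LPD G) (M : Subgroup G) [MulAction M X] (Y : Hit M X) (S : Canon L Y),
    ∃ u : X → St2, Measurable u ∧ ∀ x, ∃ e, IsCd B S x e ∧ IsSt B L Y x e (u x)

/-- Codes in a Borel way. -/
def T_CDM : Prop :=
  ∀ (G X : Type) [Group G] [TopologicalSpace G] [IsTopologicalGroup G] [PolishSpace G]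
    [MeasurableSpace G] [BorelSpace G] [MeasurableSpace X] [StandardBorelSpace X] (B : Bs G)
    (L : LPD G) (M : Subgroup G) [MulAction M X] (Y : Hit M X) (S : Canon L Y),
    ∃ E : X → ℕ → ℕ × ℕ × G, (∀ i, Measurable fun x => E x i) ∧ ∀ x, IsCd B S x (E x)

/-- The set `W2` is Borel and has a Borel selector. -/
def T_SLQ : Prop :=
  ∀ (G X : Type) [Group G] [TopologicalSpace G] [IsTopologicalGroup G] [PolishSpace G]
    [MeasurableSpace G] [BorelSpace G] [MeasurableSpace X] [StandardBorelSpace X] [Nonempty X]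
    (B : Bs G) (L : LPD G) (M : Subgroup G) [MulAction M X] (Y : Hit M X) (S : Canon L Y),
    IsClosed (M : Set G) →
    MeasurableSet (W2 B S) ∧ ∃ f : St2 → X, Measurable f ∧
      ∀ w ∈ W2 B S, ∃ e, IsCd B S (f w) e ∧ IsSt B L Y (f w) e w

/-- The orbits of structures and of points. -/
def T_ORQ : Prop :=
  ∀ (G X : Type) [Group G] [TopologicalSpace G] [IsTopologicalGroup G] [PolishSpace G]
    [MeasurableSpace G] [MeasurableSpace X] (B : Bs G) (L : LPD G) (M : Subgroup G)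
    [MulAction M X] (Y : Hit M X) (S : Canon L Y) (x x' : X) (e e' : ℕ → ℕ × ℕ × G) (w w' : St2),
    IsCd B S x e → IsSt B L Y x e w → IsCd B S x' e' → IsSt B L Y x' e' w' →
    (Iso2 w w' ↔ ∃ m : M, m • x = x')

/-! ### F. Countably many binary relations -/

/-- countably many binary relations on `ℕ` -/
abbrev Rel : Type := ℕ → ℕ → ℕ → Bool

/-- isomorphism -/
def IsoR (w w' : Rel) : Prop := ∃ π : Equiv.Perm ℕ, ∀ i j n, w' i j n = w (π i) (π j) n

/-- Structures as countably many binary relations. -/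
def T_ENC : Prop :=
  ∃ θ : St2 → Rel, Measurable θ ∧ Function.Injective θ ∧ (∀ w w', Iso2 w w' ↔ IsoR (θ w) (θ w')) ∧
    ∀ w v, IsoR (θ w) v → ∃ w', θ w' = v

/-- The strong transfer. -/
def T_TRS : Prop :=
  ∀ (G X : Type) [Group G] [TopologicalSpace G] [IsTopologicalGroup G] [PolishSpace G]
    [MeasurableSpace G] [BorelSpace G] [MeasurableSpace X] [StandardBorelSpace X] (_ : LPD G)
    (M : Subgroup G) [MulAction M X] [MeasurableSMul₂ M X], IsClosed (M : Set G) →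
    ∃ (W : Set Rel) (u : X → Rel), MeasurableSet W ∧ (∀ w w', w ∈ W → IsoR w w' → w' ∈ W) ∧
      Measurable u ∧ (∀ x, u x ∈ W) ∧ (∀ x x', (∃ m : M, m • x = x') ↔ IsoR (u x) (u x')) ∧
      ∃ v : W → X, Measurable v ∧ ∀ w : W, IsoR (u (v w)) w

end Pool.Agent.H7.LQ
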