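import Pool.Agent.H54.LP.Targets
import Pool.Agent.H93.CP.Targets2

/-!
# Targets of the board lpr_modules: an intrinsic condition

Every neighbourhood of `1` contains a closed subgroup `R`, normal in an open subgroup `H`, with
`H / R` locally compact. Such Polish groups are closed subgroups of groups with locally compact
pieces.
-/

set_option autoImplicit false

open Set Filter Topology

namespace Pool.Agent.H7.LR

open Pool.Agent.H7.LP Pool.Agent.H54.LP Pool.Agent.H93.CP

/-- small pieces -/
def SP (G : Type) [Group G] [TopologicalSpace G] : Prop :=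
  ∀ U ∈ 𝓝 (1 : G), ∃ R H : Subgroup G, Piece R H ∧ ∀ r ∈ R, r ∈ U

/-- PLC: locally compact second countable Hausdorff spaces are Polish. -/
def T_PLC : Prop :=
  ∀ (X : Type) [TopologicalSpace X] [LocallyCompactSpace X] [T2Space X]
    [SecondCountableTopology X], PolishSpace X

/-- QLC: the quotient of a piece. -/
def T_QLC : Prop :=
  ∀ (G : Type) [Group G] [TopologicalSpace G] [IsTopologicalGroup G] [PolishSpace G]
    (R H : Subgroup G), Piece R H →
    ∃ (K : Type) (_ : Group K) (_ : TopologicalSpace K) (_ : IsTopologicalGroup K)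
      (_ : PolishSpace K) (_ : LocallyCompactSpace K) (π : H →* K),
      Continuous π ∧ IsOpenMap π ∧ ∀ h : H, π h = 1 → (h : G) ∈ R

/-- WRH: the induced homomorphism to the wreath product. -/
def T_WRH : Prop :=
  ∀ (G K : Type) [Group G] [TopologicalSpace G] [IsTopologicalGroup G]
    [SecondCountableTopology G] [Group K] [TopologicalSpace K] [IsTopologicalGroup K]
    (H : Subgroup G) (π : H →* K), IsOpen (H : Set G) → Continuous π →
    ∃ ψ : G →* Wr K, Continuous ψ ∧ ∀ V ∈ 𝓝 (1 : K), ∃ W ∈ 𝓝 (1 : Wr K), ∀ g : G, ψ g ∈ W →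
      ∃ hg : g ∈ H, π ⟨g, hg⟩ ∈ V

/-- KSE: the embedding. -/
def T_KSE : Prop :=
  ∀ (G : Type) [Group G] [TopologicalSpace G] [IsTopologicalGroup G] [PolishSpace G], SP G →
    ∃ (L : Type) (_ : Group L) (_ : TopologicalSpace L) (_ : IsTopologicalGroup L)
      (_ : PolishSpace L) (φ : G →* L), Nonempty (LPD L) ∧ Topology.IsClosedEmbedding φ

/-- KSP: countable products. -/
def T_KSP : Prop :=
  ∀ (G : ℕ → Type) [∀ n, Group (G n)] [∀ n, TopologicalSpace (G n)]
    [∀ n, IsTopologicalGroup (G n)] [∀ n, PolishSpace (G n)],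
    (∀ n, SP (G n)) → SP (∀ n, G n)

end Pool.Agent.H7.LR
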